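import Mathlib
import Pool.Agent.Helper47.Chow.Defs

/-!
# Semilinear automorphisms of smooth projective varieties and their action on Chow groups

An automorphism of the arrow `X ⟶ Spec k` consists of an automorphism of the scheme `X` and an
automorphism of `Spec k` which are compatible: it is an automorphism of the scheme `X` which is
semilinear with respect to an automorphism of the field `k`.  For instance, if `k / k₀` is a Galois
extension and `X = X₀ ×_{k₀} k`, the Galois group acts in this way.
-/

universe u v w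

open CategoryTheory AlgebraicGeometry Limits

namespace Pool.Agent.Helper47.Desc

open Pool.Agent.Helper10 Pool.Agent.Helper10.SmProjVar Pool.Agent.Helper47.Chow

noncomputable section

variable {k : Type u} [Field k]

/-- The group of semilinear automorphisms of `X`. -/
abbrev SemiAut (X : SmProjVar k) : Type u := Aut (Arrow.mk X.toOver.hom)

namespace SemiAut

variable {X : SmProjVar k}

/-- The automorphism of the scheme `X` underlying a semilinear automorphism. -/
def sch (g : SemiAut X) : X.toOver.left ⟶ X.toOver.left := g.hom.left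

/-- The automorphism of `Spec k` underlying a semilinear automorphism. -/
def base (g : SemiAut X) : Spec (CommRingCat.of k) ⟶ Spec (CommRingCat.of k) := g.hom.right

lemma sch_mul (g h : SemiAut X) : (g * h).sch = h.sch ≫ g.sch := rfl

lemma base_mul (g h : SemiAut X) : (g * h).base = h.base ≫ g.base := rfl

lemma sch_one : (1 : SemiAut X).sch = 𝟙 _ := rfl

lemma base_one : (1 : SemiAut X).base = 𝟙 _ := rfl

lemma sch_inv_sch (g : SemiAut X) : sch g⁻¹ ≫ sch g = 𝟙 _ := by
  rw [← sch_mul, mul_inv_cancel, sch_one]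

lemma sch_sch_inv (g : SemiAut X) : sch g ≫ sch g⁻¹ = 𝟙 _ := by
  rw [← sch_mul, inv_mul_cancel, sch_one]

lemma base_inv_base (g : SemiAut X) : base g⁻¹ ≫ base g = 𝟙 _ := by
  rw [← base_mul, mul_inv_cancel, base_one]

lemma base_base_inv (g : SemiAut X) : base g ≫ base g⁻¹ = 𝟙 _ := by
  rw [← base_mul, inv_mul_cancel, base_one]

lemma sch_hom (g : SemiAut X) : g.sch ≫ X.toOver.hom = X.toOver.hom ≫ g.base := g.hom.w

instance (g : SemiAut X) : IsIso g.sch := ⟨g⁻¹.sch, sch_sch_inv g, sch_inv_sch g⟩

instance (g : SemiAut X) : IsIso g.base := ⟨g⁻¹.base, base_base_inv g, base_inv_base g⟩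

/-- The action of a semilinear automorphism on the points of `X`. -/
def pt (g : SemiAut X) (x : X.Pt) : X.Pt := g.sch x

lemma pt_mul (g h : SemiAut X) (x : X.Pt) : (g * h).pt x = g.pt (h.pt x) :=
  Scheme.Hom.comp_apply h.sch g.sch x

lemma pt_one (x : X.Pt) : (1 : SemiAut X).pt x = x := rfl

lemma pt_inv_pt (g : SemiAut X) (x : X.Pt) : pt g⁻¹ (g.pt x) = x := by
  rw [← pt_mul, inv_mul_cancel, pt_one]

lemma pt_pt_inv (g : SemiAut X) (x : X.Pt) : g.pt (pt g⁻¹ x) = x := by
  rw [← pt_mul, mul_inv_cancel, pt_one]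

lemma pt_injective (g : SemiAut X) : Function.Injective g.pt := fun x y h => by
  rw [← pt_inv_pt g x, h, pt_inv_pt]

/-- The image of a cycle under a semilinear automorphism. -/
def cyc (g : SemiAut X) : (X.Pt →₀ ℚ) →ₗ[ℚ] (X.Pt →₀ ℚ) := Finsupp.lmapDomain ℚ ℚ g.pt

lemma cyc_apply_pt (g : SemiAut X) (z : X.Pt →₀ ℚ) (x : X.Pt) : g.cyc z (g.pt x) = z x :=
  Finsupp.mapDomain_apply g.pt_injective z x

lemma cyc_apply (g : SemiAut X) (z : X.Pt →₀ ℚ) (x : X.Pt) : g.cyc z x = z (pt g⁻¹ x) := by
  conv_lhs => rw [← pt_pt_inv g x]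
  exact cyc_apply_pt g z _

lemma isDivisor_cyc (g : SemiAut X) {z : QCycles X} (h : IsDivisor X z) :
    IsDivisor X (g.cyc z) := by
  obtain ⟨W, hW1, hW2, ι, hι, f, hf, h1, h2⟩ := h
  refine ⟨W, hW1, hW2, ι ≫ g.sch, inferInstance, f, hf, fun w => ?_, fun x hx => ?_⟩
  · rw [← h1 w, Scheme.Hom.comp_apply]
    exact cyc_apply_pt g z (ι w)
  · refine (cyc_apply g z x).trans (h2 _ fun hx' => hx ?_)
    obtain ⟨w, hw⟩ := hx'
    refine ⟨w, ?_⟩
    rw [Scheme.Hom.comp_apply, hw]
    exact pt_pt_inv g x

/-- The action of a semilinear automorphism on the Chow group: the subvariety with generic point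
`x` goes to the one with generic point `g x`. -/
def chow (g : SemiAut X) : CH X →ₗ[ℚ] CH X :=
  (ratZero X).mapQ (ratZero X) g.cyc (by
    unfold ratZero
    rw [Submodule.span_le]
    intro z hz
    exact Submodule.subset_span (isDivisor_cyc g hz))

lemma chow_cls (g : SemiAut X) (z : QCycles X) : g.chow (cls X z) = cls X (g.cyc z) := rfl

end SemiAut

section Prod

variable {X Y : SmProjVar k}

lemma prod_condition : (fst X Y).left ≫ X.toOver.hom = (snd X Y).left ≫ Y.toOver.hom :=
  pullback.condition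

/-- The automorphism `g × h` of the scheme `X ×ₖ Y`. -/
def prodSch (g : SemiAut X) (h : SemiAut Y) (e : g.base = h.base) :
    (X.prod Y).toOver.left ⟶ (X.prod Y).toOver.left :=
  pullback.lift (f := X.toOver.hom) (g := Y.toOver.hom) ((fst X Y).left ≫ g.sch)
    ((snd X Y).left ≫ h.sch)
    (by
      have h1 : ((fst X Y).left ≫ g.sch) ≫ X.toOver.hom = ((fst X Y).left ≫ X.toOver.hom) ≫
          g.base := by rw [Category.assoc, g.sch_hom, Category.assoc]
      have h2 : ((snd X Y).left ≫ h.sch) ≫ Y.toOver.hom = ((snd X Y).left ≫ Y.toOver.hom) ≫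
          h.base := by rw [Category.assoc, h.sch_hom, Category.assoc]
      exact h1.trans ((by rw [prod_condition, e] :
        ((fst X Y).left ≫ X.toOver.hom) ≫ g.base = ((snd X Y).left ≫ Y.toOver.hom) ≫ h.base).trans
          h2.symm))

lemma prodSch_fst (g : SemiAut X) (h : SemiAut Y) (e : g.base = h.base) :
    prodSch g h e ≫ (fst X Y).left = (fst X Y).left ≫ g.sch :=
  pullback.lift_fst _ _ _

lemma prodSch_snd (g : SemiAut X) (h : SemiAut Y) (e : g.base = h.base) :
    prodSch g h e ≫ (snd X Y).left = (snd X Y).left ≫ h.sch :=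
  pullback.lift_snd _ _ _

lemma hom_ext_sch {Z : Scheme.{u}} {a b : Z ⟶ (X.prod Y).toOver.left}
    (h1 : a ≫ (fst X Y).left = b ≫ (fst X Y).left)
    (h2 : a ≫ (snd X Y).left = b ≫ (snd X Y).left) : a = b :=
  pullback.hom_ext h1 h2

lemma prodSch_comp (g g' : SemiAut X) (h h' : SemiAut Y) (e : g.base = h.base)
    (e' : g'.base = h'.base) (e'' : (g * g').base = (h * h').base) :
    prodSch g' h' e' ≫ prodSch g h e = prodSch (g * g') (h * h') e'' := by
  apply hom_ext_sch
  · rw [Category.assoc, prodSch_fst, ← Category.assoc, prodSch_fst, prodSch_fst, Category.assoc,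
      SemiAut.sch_mul]
  · rw [Category.assoc, prodSch_snd, ← Category.assoc, prodSch_snd, prodSch_snd, Category.assoc,
      SemiAut.sch_mul]

lemma prodSch_one (e : (1 : SemiAut X).base = (1 : SemiAut Y).base) :
    prodSch (1 : SemiAut X) (1 : SemiAut Y) e = 𝟙 _ := by
  apply hom_ext_sch
  · rw [prodSch_fst, SemiAut.sch_one, Category.comp_id, Category.id_comp]
  · rw [prodSch_snd, SemiAut.sch_one, Category.comp_id, Category.id_comp]

lemma prodSch_hom (g : SemiAut X) (h : SemiAut Y) (e : g.base = h.base) :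
    prodSch g h e ≫ (X.prod Y).toOver.hom = (X.prod Y).toOver.hom ≫ g.base := by
  change prodSch g h e ≫ (fst X Y).left ≫ X.toOver.hom = ((fst X Y).left ≫ X.toOver.hom) ≫ g.base
  rw [← Category.assoc, prodSch_fst, Category.assoc, g.sch_hom, Category.assoc]

lemma base_inv_eq (g : SemiAut X) (h : SemiAut Y) (e : g.base = h.base) :
    SemiAut.base g⁻¹ = SemiAut.base h⁻¹ := by
  rw [← cancel_mono g.base, SemiAut.base_inv_base]
  rw [e, SemiAut.base_inv_base]

/-- The endomorphism of the arrow `X ×ₖ Y ⟶ Spec k` given by `g` and `h`. -/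
def prodHom (g : SemiAut X) (h : SemiAut Y) (e : g.base = h.base) :
    Arrow.mk (X.prod Y).toOver.hom ⟶ Arrow.mk (X.prod Y).toOver.hom :=
  Arrow.homMk (u := prodSch g h e) (v := g.base) (prodSch_hom g h e)

lemma prodHom_comp (g g' : SemiAut X) (h h' : SemiAut Y) (e : g.base = h.base)
    (e' : g'.base = h'.base) (e'' : (g * g').base = (h * h').base) :
    prodHom g' h' e' ≫ prodHom g h e = prodHom (g * g') (h * h') e'' :=
  Arrow.hom_ext _ _ (prodSch_comp g g' h h' e e' e'') rfl

lemma prodHom_one (e : (1 : SemiAut X).base = (1 : SemiAut Y).base) :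
    prodHom (1 : SemiAut X) (1 : SemiAut Y) e = 𝟙 _ :=
  Arrow.hom_ext _ _ (prodSch_one e) rfl

lemma prodHom_congr {g g' : SemiAut X} {h h' : SemiAut Y} (e : g.base = h.base)
    (hg : g = g') (hh : h = h') (e' : g'.base = h'.base) : prodHom g h e = prodHom g' h' e' := by
  subst hg; subst hh; rfl

lemma base_one_eq : (1 : SemiAut X).base = (1 : SemiAut Y).base :=
  SemiAut.base_one.trans SemiAut.base_one.symm

lemma base_mul_eq {g g' : SemiAut X} {h h' : SemiAut Y} (e : g.base = h.base)
    (e' : g'.base = h'.base) : (g * g').base = (h * h').base := by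
  rw [SemiAut.base_mul, SemiAut.base_mul, e, e']

lemma prodHom_inv (g g' : SemiAut X) (h h' : SemiAut Y) (e : g.base = h.base)
    (e' : g'.base = h'.base) (hg : g * g' = 1) (hh : h * h' = 1) :
    prodHom g' h' e' ≫ prodHom g h e = 𝟙 _ :=
  (prodHom_comp g g' h h' e e' (base_mul_eq e e')).trans
    ((prodHom_congr (base_mul_eq e e') hg hh base_one_eq).trans (prodHom_one base_one_eq))

/-- The product of two semilinear automorphisms over the same automorphism of `k`. -/
def prodAut (g : SemiAut X) (h : SemiAut Y) (e : g.base = h.base) : SemiAut (X.prod Y) where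
  hom := prodHom g h e
  inv := prodHom g⁻¹ h⁻¹ (base_inv_eq g h e)
  hom_inv_id := prodHom_inv _ _ _ _ _ _ (inv_mul_cancel g) (inv_mul_cancel h)
  inv_hom_id := prodHom_inv _ _ _ _ _ _ (mul_inv_cancel g) (mul_inv_cancel h)

lemma prodAut_sch (g : SemiAut X) (h : SemiAut Y) (e : g.base = h.base) :
    (prodAut g h e).sch = prodSch g h e := rfl

lemma prodAut_base (g : SemiAut X) (h : SemiAut Y) (e : g.base = h.base) :
    (prodAut g h e).base = g.base := rfl

end Prod

variable {K : Type v} [Field K] [CharZero K] {W : WeilCohomology.{u, v, w} k K}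

/-- The operations of the Chow theory commute with semilinear automorphisms, and semilinear
automorphisms preserve homological triviality.  (`g` and `h` are automorphisms of `X` and `Y` over
the same automorphism of `k`, compatible with the morphism `f`.) -/
structure IsEquivariant (C : ChowTheory W) : Prop where
  mul : ∀ (X : SmProjVar k) (g : SemiAut X) (a b : CH X),
    g.chow (C.ops.mul X a b) = C.ops.mul X (g.chow a) (g.chow b)
  pull : ∀ {X Y : SmProjVar k} (g : SemiAut X) (h : SemiAut Y) (f : X.toOver ⟶ Y.toOver),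
    g.base = h.base → f.left ≫ h.sch = g.sch ≫ f.left →
      ∀ a : CH Y, g.chow (C.ops.pull f a) = C.ops.pull f (h.chow a)
  push : ∀ {X Y : SmProjVar k} (g : SemiAut X) (h : SemiAut Y) (f : X.toOver ⟶ Y.toOver),
    g.base = h.base → f.left ≫ h.sch = g.sch ≫ f.left →
      ∀ a : CH X, h.chow (C.ops.push f a) = C.ops.push f (g.chow a)
  cl : ∀ (X : SmProjVar k) (g : SemiAut X) (a : CH X), C.ops.cl X a = 0 →
    C.ops.cl X (g.chow a) = 0

end

end Pool.Agent.Helper47.Desc
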