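import Mathlib
import Pool.Agent.Helper47.Desc.Defs

/-!
# Semilinear automorphisms preserve the dimension of subvarieties
-/

universe u v w

open CategoryTheory AlgebraicGeometry Limits Cardinal

namespace Pool.Agent.Helper47.Desc

open Pool.Agent.Helper10 Pool.Agent.Helper10.SmProjVar Pool.Agent.Helper47.Chow

variable {k : Type u} [Field k]

lemma trdeg_le_semilinear {R A B : Type u} [CommRing R] [Nontrivial R] [CommRing A] [CommRing B]
    [Algebra R A] [Algebra R B] (f : R →+* R) (hf : Function.Surjective f) (e : A →+* B)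
    (he : Function.Injective e) (h : (algebraMap R B).comp f = e.comp (algebraMap R A)) :
    Algebra.trdeg R A ≤ Algebra.trdeg R B := by
  rw [Algebra.trdeg]
  exact ciSup_le' fun i => (i.2.ringHom_of_comp_eq f e hf he h).cardinalMk_le_trdeg

/-- The structure morphism `k → κ(x)`. -/
noncomputable def resHom (X : SmProjVar k) (x : X.toOver.left) :
    CommRingCat.of k ⟶ X.toOver.left.residueField x :=
  Spec.preimage (X.toOver.left.fromSpecResidueField x ≫ X.toOver.hom)

/-- The transcendence degree of the residue field. -/
noncomputable def trd (X : SmProjVar k) (x : X.toOver.left) : Cardinal :=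
  letI : Algebra k (X.toOver.left.residueField x) := (resHom X x).hom.toAlgebra
  Algebra.trdeg k (X.toOver.left.residueField x)

lemma pointDim_eq_toNat (X : SmProjVar k) (x : X.Pt) : X.pointDim x = toNat (trd X x) := rfl

lemma resHom_comm {X : SmProjVar k} (g : SemiAut X) (x : X.toOver.left) :
    Spec.preimage g.base ≫ resHom X x = resHom X (g.sch x) ≫ g.sch.residueFieldMap x := by
  apply Spec.map_injective
  rw [Spec.map_comp, Spec.map_comp, resHom, resHom, Spec.map_preimage, Spec.map_preimage,
    Spec.map_preimage, Scheme.Hom.SpecMap_residueFieldMap_fromSpecResidueField_assoc, g.sch_hom,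
    Category.assoc]

lemma preimage_comp {X : SmProjVar k} (g : SemiAut X) :
    Spec.preimage (SemiAut.base g⁻¹) ≫ Spec.preimage g.base = 𝟙 (CommRingCat.of k) := by
  apply Spec.map_injective
  rw [Spec.map_comp, Spec.map_preimage, Spec.map_preimage, Spec.map_id, SemiAut.base_base_inv]

lemma trd_le {X : SmProjVar k} (g : SemiAut X) (x : X.toOver.left) :
    trd X (g.sch x) ≤ trd X x := by
  let _ : Algebra k (X.toOver.left.residueField x) := (resHom X x).hom.toAlgebra
  let _ : Algebra k (X.toOver.left.residueField (g.sch x)) := (resHom X (g.sch x)).hom.toAlgebra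
  refine trdeg_le_semilinear (Spec.preimage g.base).hom ?_ (g.sch.residueFieldMap x).hom ?_ ?_
  · intro c
    refine ⟨(Spec.preimage (SemiAut.base g⁻¹)).hom c, ?_⟩
    exact congrArg (fun f : CommRingCat.of k ⟶ CommRingCat.of k => f.hom c) (preimage_comp g)
  · exact (g.sch.residueFieldMap x).hom.injective
  · exact congrArg CommRingCat.Hom.hom (resHom_comm g x)

lemma trd_eq {X : SmProjVar k} (g : SemiAut X) (x : X.toOver.left) :
    trd X (g.sch x) = trd X x := by
  refine le_antisymm (trd_le g x) ?_
  have h := trd_le g⁻¹ (g.sch x)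
  have e : (g⁻¹).sch (g.sch x) = x := SemiAut.pt_inv_pt g x
  rwa [e] at h

lemma pointDim_pt {X : SmProjVar k} (g : SemiAut X) (x : X.Pt) :
    X.pointDim (g.pt x) = X.pointDim x := by
  rw [pointDim_eq_toNat, pointDim_eq_toNat]
  exact congrArg toNat (trd_eq g x)

end Pool.Agent.Helper47.Desc
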