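import Mathlib
import Pool.Agent.Helper47.Desc.PointDim
import Pool.Agent.Helper47.Chow.Corr

/-!
# Semilinear automorphisms act on the ring of correspondences
-/

universe u v w

open CategoryTheory AlgebraicGeometry Limits

namespace Pool.Agent.Helper47.Desc

open Pool.Agent.Helper10 Pool.Agent.Helper10.SmProjVar Pool.Agent.Helper47.Chow

variable {k : Type u} [Field k]

section Chow

variable {X : SmProjVar k}

lemma chow_ptCls (g : SemiAut X) (x : X.Pt) : g.chow (ptCls X x) = ptCls X (g.pt x) := by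
  change cls X (g.cyc (Finsupp.single x 1)) = cls X (Finsupp.single (g.pt x) 1)
  congr 1
  exact Finsupp.mapDomain_single

lemma cyc_mul (g h : SemiAut X) (z : X.Pt →₀ ℚ) : (g * h).cyc z = g.cyc (h.cyc z) := by
  refine Finsupp.ext fun x => ?_
  rw [SemiAut.cyc_apply, SemiAut.cyc_apply, SemiAut.cyc_apply, mul_inv_rev, SemiAut.pt_mul]

lemma cyc_one (z : X.Pt →₀ ℚ) : (1 : SemiAut X).cyc z = z := by
  refine Finsupp.ext fun x => ?_
  rw [SemiAut.cyc_apply, inv_one, SemiAut.pt_one]

lemma chow_mul (g h : SemiAut X) (a : CH X) : (g * h).chow a = g.chow (h.chow a) := by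
  obtain ⟨z, rfl⟩ := Submodule.mkQ_surjective (ratZero X) a
  exact congrArg (cls X) (cyc_mul g h z)

lemma chow_one (a : CH X) : (1 : SemiAut X).chow a = a := by
  obtain ⟨z, rfl⟩ := Submodule.mkQ_surjective (ratZero X) a
  exact congrArg (cls X) (cyc_one z)

lemma chow_mem (g : SemiAut X) (i : ℕ) (a : CH X) (ha : a ∈ CHi X i) : g.chow a ∈ CHi X i := by
  obtain ⟨z, hz, rfl⟩ := ha
  refine ⟨g.cyc z, fun x hx => ?_, rfl⟩
  have h1 : z.coeff (SemiAut.pt g⁻¹ x) ≠ 0 := fun h => hx ((SemiAut.cyc_apply g z x).trans h)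
  have h2 := hz _ h1
  rwa [pointDim_pt] at h2

end Chow

section Comm

variable {X Y Z : SmProjVar k}

/-- `f` is compatible with the semilinear automorphisms `g` of `X` and `h` of `Y`. -/
def Comm (g : SemiAut X) (h : SemiAut Y) (f : X.toOver ⟶ Y.toOver) : Prop :=
  f.left ≫ h.sch = g.sch ≫ f.left

lemma Comm.comp {g : SemiAut X} {h : SemiAut Y} {c : SemiAut Z} {f : X.toOver ⟶ Y.toOver}
    {f' : Y.toOver ⟶ Z.toOver} (hf : Comm g h f) (hf' : Comm h c f') : Comm g c (f ≫ f') := by
  unfold Comm at *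
  rw [Over.comp_left, Category.assoc, hf', ← Category.assoc, hf, Category.assoc]

lemma comm_id (g : SemiAut X) : Comm g g (𝟙 _) := by
  unfold Comm
  rw [Over.id_left, Category.id_comp, Category.comp_id]

lemma comm_fst (g : SemiAut X) (h : SemiAut Y) (e : g.base = h.base) :
    Comm (prodAut g h e) g (fst X Y) := (prodSch_fst g h e).symm

lemma comm_snd (g : SemiAut X) (h : SemiAut Y) (e : g.base = h.base) :
    Comm (prodAut g h e) h (snd X Y) := (prodSch_snd g h e).symm

lemma comm_lift (g : SemiAut X) (h : SemiAut Y) (e : g.base = h.base) (c : SemiAut Z)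
    {f : Z.toOver ⟶ X.toOver} {f' : Z.toOver ⟶ Y.toOver} (hf : Comm c g f) (hf' : Comm c h f') :
    Comm c (prodAut g h e) (lift f f') := by
  have h1 : (lift f f').left ≫ (fst X Y).left = f.left := by
    rw [← Over.comp_left, lift_fst]
  have h2 : (lift f f').left ≫ (snd X Y).left = f'.left := by
    rw [← Over.comp_left, lift_snd]
  unfold Comm at *
  apply hom_ext_sch
  · rw [Category.assoc, prodAut_sch, prodSch_fst, ← Category.assoc, h1, hf, Category.assoc, h1]
  · rw [Category.assoc, prodAut_sch, prodSch_snd, ← Category.assoc, h2, hf', Category.assoc, h2]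

lemma prodAut_mul (g g' : SemiAut X) (h h' : SemiAut Y) (e : g.base = h.base)
    (e' : g'.base = h'.base) :
    prodAut (g * g') (h * h') (base_mul_eq e e') = prodAut g h e * prodAut g' h' e' :=
  Iso.ext (prodHom_comp g g' h h' e e' (base_mul_eq e e')).symm

lemma prodAut_one : prodAut (1 : SemiAut X) (1 : SemiAut Y) base_one_eq = 1 :=
  Iso.ext (prodHom_one base_one_eq)

end Comm

/-- The semilinear automorphism `g × g` of `X × X`. -/
noncomputable def sq {X : SmProjVar k} (g : SemiAut X) : SemiAut (X.prod X) := prodAut g g rfl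

lemma sq_mul {X : SmProjVar k} (g h : SemiAut X) : sq (g * h) = sq g * sq h :=
  prodAut_mul g h g h rfl rfl

lemma sq_one {X : SmProjVar k} : sq (1 : SemiAut X) = 1 := prodAut_one

variable {K : Type v} [Field K] [CharZero K] {W : WeilCohomology.{u, v, w} k K}
  {C : ChowTheory W}

section Equivariant

variable (hC : IsEquivariant C) {X : SmProjVar k}
include hC

lemma chow_comp (g : SemiAut X) (β γ : CH (X.prod X)) :
    (sq g).chow (C.comp β γ) = C.comp ((sq g).chow β) ((sq g).chow γ) := by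
  let t : SemiAut (X.prod (X.prod X)) := prodAut g (sq g) rfl
  have h12 : Comm t (sq g) (p12 X X X) :=
    comm_lift _ _ _ _ (comm_fst _ _ _) ((comm_snd _ _ _).comp (comm_fst _ _ _))
  have h13 : Comm t (sq g) (p13 X X X) :=
    comm_lift _ _ _ _ (comm_fst _ _ _) ((comm_snd _ _ _).comp (comm_snd _ _ _))
  have h23 : Comm t (sq g) (p23 X X X) := comm_snd _ _ _
  have h1 := hC.push t (sq g) (p13 X X X) rfl h13
    (C.ops.mul _ (C.ops.pull (p12 X X X) β) (C.ops.pull (p23 X X X) γ))
  rw [hC.mul, hC.pull t (sq g) (p12 X X X) rfl h12, hC.pull t (sq g) (p23 X X X) rfl h23] at h1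
  exact h1

lemma cl_chow_iff (g : SemiAut X) (a : CH X) :
    C.ops.cl X (g.chow a) = 0 ↔ C.ops.cl X a = 0 := by
  refine ⟨fun h => ?_, hC.cl X g a⟩
  have := hC.cl X g⁻¹ _ h
  rwa [← chow_mul, inv_mul_cancel, chow_one] at this

end Equivariant

/-- The ring automorphism of the ring of correspondences given by a semilinear automorphism. -/
noncomputable def corrAut (hC : IsEquivariant C) {X : SmProjVar k} (g : SemiAut X) :
    Corr C X ≃+* Corr C X where
  toFun γ := ⟨(sq g).chow γ.1, chow_mem _ _ _ γ.2⟩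
  invFun γ := ⟨(sq g⁻¹).chow γ.1, chow_mem _ _ _ γ.2⟩
  left_inv γ := Corr.ext (by
    change (sq g⁻¹).chow ((sq g).chow γ.1) = γ.1
    rw [← chow_mul, ← sq_mul, inv_mul_cancel, sq_one, chow_one])
  right_inv γ := Corr.ext (by
    change (sq g).chow ((sq g⁻¹).chow γ.1) = γ.1
    rw [← chow_mul, ← sq_mul, mul_inv_cancel, sq_one, chow_one])
  map_mul' γ β := Corr.ext (chow_comp hC g β.1 γ.1)
  map_add' γ β := Corr.ext (map_add (sq g).chow γ.1 β.1)

lemma corrAut_val (hC : IsEquivariant C) {X : SmProjVar k} (g : SemiAut X) (γ : Corr C X) :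
    (corrAut hC g γ).val = (sq g).chow γ.val := rfl

/-- The action of a group of semilinear automorphisms on the ring of correspondences. -/
noncomputable def corrRho (hC : IsEquivariant C) (X : SmProjVar k) :
    SemiAut X →* (Corr C X ≃+* Corr C X) where
  toFun := corrAut hC
  map_one' := by
    refine RingEquiv.ext fun γ => Corr.ext ?_
    change (sq (1 : SemiAut X)).chow γ.1 = γ.1
    rw [sq_one, chow_one]
  map_mul' g h := by
    refine RingEquiv.ext fun γ => Corr.ext ?_
    change (sq (g * h)).chow γ.1 = (sq g).chow ((sq h).chow γ.1)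
    rw [sq_mul, chow_mul]

lemma corrRho_val (hC : IsEquivariant C) {X : SmProjVar k} (g : SemiAut X) (γ : Corr C X) :
    (corrRho hC X g γ).val = (sq g).chow γ.val := rfl

/-- If the points of `X` have finite orbits under `Γ`, so have the cycle classes. -/
lemma finite_orbit {X : SmProjVar k} {Γ : Type*} (ρ : Γ → SemiAut X)
    (hfin : ∀ x : X.Pt, (Set.range fun γ => (ρ γ).pt x).Finite) (a : CH X) :
    (Set.range fun γ => (ρ γ).chow a).Finite := by
  classical
  obtain ⟨z, rfl⟩ := Submodule.mkQ_surjective (ratZero X) a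
  change (Set.range fun γ => (ρ γ).chow (cls X z)).Finite
  let z' : X.Pt →₀ ℚ := z
  have h1 : ∀ γ, (ρ γ).chow (cls X z) = ∑ x ∈ z'.support, z' x • ptCls X ((ρ γ).pt x) := by
    intro γ
    have : cls X z = ∑ x ∈ z'.support, z' x • ptCls X x := ChowTheory.cls_eq_sum z'
    rw [this, map_sum]
    refine Finset.sum_congr rfl fun x _ => ?_
    rw [map_smul, chow_ptCls]
  let F : (∀ x : z'.support, X.Pt) → CH X := fun v => ∑ x : z'.support, z' x • ptCls X (v x)
  have h2 : (Set.range fun γ => (fun x : z'.support => (ρ γ).pt x.1)).Finite := by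
    refine (Set.Finite.pi (t := fun x : z'.support => Set.range fun γ => (ρ γ).pt x.1)
      fun x => hfin x.1).subset ?_
    rintro _ ⟨γ, rfl⟩ x _
    exact ⟨γ, rfl⟩
  refine (h2.image F).subset ?_
  rintro _ ⟨γ, rfl⟩
  refine ⟨_, ⟨γ, rfl⟩, ?_⟩
  change ∑ x : z'.support, z' x • ptCls X ((ρ γ).pt x) = (ρ γ).chow (cls X z)
  rw [h1]
  exact Finset.sum_coe_sort z'.support (fun x => z' x • ptCls X ((ρ γ).pt x))

end Pool.Agent.Helper47.Desc
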