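import Mathlib
import Pool.Agent.Helper47.Desc.Act
import Pool.Agent.Helper47.Chow.OffMiddle

/-!
# Decomposable correspondences
-/

universe u v w

open CategoryTheory AlgebraicGeometry Limits

namespace Pool.Agent.Helper47.Desc

open Pool.Agent.Helper10 Pool.Agent.Helper10.SmProjVar Pool.Agent.Helper47.Chow

variable {k : Type u} [Field k] {K : Type v} [Field K] [CharZero K]
  {W : WeilCohomology.{u, v, w} k K}

/-- The decomposable correspondences: the span of the exterior products `b × a` with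
`b ∈ CH^j(X)`, `a ∈ CH^i(X)`, `i + j = dim X`. -/
noncomputable def decomposable (C : ChowTheory W) (X : SmProjVar k) : Submodule ℚ (CH (X.prod X)) :=
  Submodule.span ℚ {z | ∃ i j, i + j = X.dim ∧ ∃ b ∈ CHi X j, ∃ a ∈ CHi X i,
    z = C.ops.mul (X.prod X) (C.ops.pull (fst X X) b) (C.ops.pull (snd X X) a)}

variable {C : ChowTheory W} {X : SmProjVar k}

lemma decomposable_eq : decomposable C X =
    Submodule.span ℚ {z | ∃ i j, i + j = X.dim ∧ ∃ b ∈ CHi X j, ∃ a ∈ CHi X i,
      z = extProd C b a} := rfl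

lemma comp_dec_hom_dec {z z' γ : CH (X.prod X)} (hz : z ∈ decomposable C X)
    (hz' : z' ∈ decomposable C X) (hγ : γ ∈ CHi (X.prod X) X.dim) (h0 : C.cl _ γ = 0) :
    C.comp (C.comp z γ) z' = 0 := by
  rw [decomposable_eq] at hz hz'
  refine Submodule.span_induction (p := fun z _ => C.comp (C.comp z γ) z' = 0) ?_ ?_ ?_ ?_ hz
  · rintro _ ⟨i, j, hij, b, hb, a, ha, rfl⟩
    refine Submodule.span_induction (p := fun z' _ => C.comp (C.comp (extProd C b a) γ) z' = 0)
      ?_ ?_ ?_ ?_ hz'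
    · rintro _ ⟨i', j', hij', b', hb', a', ha', rfl⟩
      exact comp_hom_algProj (i := i) (j := j) (i' := i') (j' := j') hij'
        (Submodule.subset_span ⟨b, hb, a, ha, rfl⟩)
        (Submodule.subset_span ⟨b', hb', a', ha', rfl⟩) hγ h0
    · exact C.comp_zero _
    · intro x y _ _ hx hy
      rw [C.comp_add, hx, hy, add_zero]
    · intro q x _ hx
      rw [C.comp_smul, hx, smul_zero]
  · rw [C.zero_comp, C.zero_comp]
  · intro x y _ _ hx hy
    rw [C.add_comp, C.add_comp, hx, hy, add_zero]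
  · intro q x _ hx
    rw [C.smul_comp, C.smul_comp, hx, smul_zero]

lemma pairH_dec {z : CH (X.prod X)} (hz : z ∈ decomposable C X) (x : W.H X) :
    ∃ t ∈ Submodule.span K (Set.range (C.ops.cl X)), ∀ y, pairH C x y z = W.tr X (t * y) := by
  rw [decomposable_eq] at hz
  refine Submodule.span_induction (p := fun z _ =>
    ∃ t ∈ Submodule.span K (Set.range (C.ops.cl X)), ∀ y, pairH C x y z = W.tr X (t * y))
    ?_ ?_ ?_ ?_ hz
  · rintro _ ⟨i, j, hij, b, hb, a, ha, rfl⟩
    refine ⟨W.tr X (x * C.cl X b) • C.ops.cl X a,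
      Submodule.smul_mem _ _ (Submodule.subset_span ⟨a, rfl⟩), fun y => ?_⟩
    rw [pairH_extProd, smul_mul_assoc, (W.trace X).map_smul]
    rfl
  · refine ⟨0, Submodule.zero_mem _, fun y => ?_⟩
    rw [map_zero, zero_mul, ChowTheory.tr_zero]
  · rintro z z' _ _ ⟨t, ht, h⟩ ⟨t', ht', h'⟩
    refine ⟨t + t', Submodule.add_mem _ ht ht', fun y => ?_⟩
    rw [map_add, h, h', add_mul, (W.trace X).map_add]
  · rintro q z _ ⟨t, ht, h⟩
    refine ⟨(q : K) • t, Submodule.smul_mem _ _ ht, fun y => ?_⟩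
    rw [pairH_smul, h, smul_mul_assoc, (W.trace X).map_smul]

/-- If not all of the cohomology of `X` is algebraic, a homologically trivial combination
`c Δ + z` with `z` decomposable has `c = 0`. -/
lemma coeff_eq_zero (hX : ∃ x : W.H X, x ∉ Submodule.span K (Set.range (C.ops.cl X)))
    {c : ℚ} {z : CH (X.prod X)} (hz : z ∈ decomposable C X)
    (h0 : C.ops.cl _ (c • C.Δ X + z) = 0) : c = 0 := by
  obtain ⟨x, hx⟩ := hX
  by_contra hc
  obtain ⟨t, ht, h⟩ := pairH_dec hz x
  apply hx
  have h1 : ∀ y, W.tr X (((c : K) • x + t) * y) = 0 := by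
    intro y
    have h2 : pairH C x y (c • C.Δ X + z) = 0 := by
      rw [pairH_apply]
      have : C.cl _ (c • C.Δ X + z) = 0 := h0
      rw [this, mul_zero, zero_mul, ChowTheory.tr_zero]
    rw [map_add, pairH_smul, pairH_Δ, h] at h2
    rw [add_mul, smul_mul_assoc, (W.trace X).map_add, (W.trace X).map_smul]
    exact h2
  have h3 : (c : K) • x + t = 0 := (W.trace X).nondegenerate _ h1
  have hcK : (c : K) ≠ 0 := by exact_mod_cast hc
  have h4 : x = (-(c : K)⁻¹) • t := by
    have : (c : K) • x = -t := by rw [← add_eq_zero_iff_eq_neg]; exact h3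
    calc x = (c : K)⁻¹ • ((c : K) • x) := by rw [smul_smul, inv_mul_cancel₀ hcK, one_smul]
      _ = (-(c : K)⁻¹) • t := by rw [this, smul_neg, neg_smul]
  rw [h4]
  exact Submodule.smul_mem _ _ ht

end Pool.Agent.Helper47.Desc
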