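import Mathlib

/-!
# Essential Maschke theorem

`A` is a ring with an action of a finite group `G`, `V` an `A`-module with a compatible action `τ`
of `G`, without `|G|`-torsion.  If a `G`-stable submodule `W` meets all non-zero `G`-stable
submodules of `V`, it meets all non-zero submodules of `V`.
-/

namespace Pool.Agent.Helper47.Desc

theorem essential_maschke {G A V : Type*} [Group G] [Fintype G] [Ring A] [AddCommGroup V]
    [Module A V] (ρ : G →* (A ≃+* A)) (τ : G → V →+ V) (h1 : ∀ v, τ 1 v = v)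
    (hmul : ∀ g h v, τ (g * h) v = τ g (τ h v)) (hsm : ∀ g (a : A) v, τ g (a • v) = ρ g a • τ g v)
    (htf : ∀ v : V, Fintype.card G • v = 0 → v = 0) (W : Submodule A V)
    (hW : ∀ g, ∀ v ∈ W, τ g v ∈ W)
    (hess : ∀ U : Submodule A V, (∀ g, ∀ v ∈ U, τ g v ∈ U) → (∀ v ∈ U, v ∈ W → v = 0) →
      ∀ v ∈ U, v = 0)
    (L : Submodule A V) (hL : ∀ v ∈ L, v ∈ W → v = 0) : ∀ v ∈ L, v = 0 := by
  classical
  -- basic facts on τ
  have hinv1 : ∀ g v, τ g (τ g⁻¹ v) = v := fun g v => by rw [← hmul, mul_inv_cancel, h1]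
  have hinv2 : ∀ g v, τ g⁻¹ (τ g v) = v := fun g v => by rw [← hmul, inv_mul_cancel, h1]
  have hρ1 : ∀ g a, ρ g (ρ g⁻¹ a) = a := fun g a => by
    have : (ρ g * ρ g⁻¹) a = a := by rw [← map_mul, mul_inv_cancel, map_one]; rfl
    exact this
  by_contra hcon
  push Not at hcon
  -- Zorn
  obtain ⟨M0, hLM0, hmax⟩ := zorn_le_nonempty₀
    {M : Submodule A V | ∀ v ∈ M, v ∈ W → v = 0} (by
      intro c hc hchain y hy
      refine ⟨sSup c, ?_, fun z hz => le_sSup hz⟩
      intro v hv hvW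
      rw [Submodule.mem_sSup_of_directed ⟨y, hy⟩ hchain.directedOn] at hv
      obtain ⟨M, hM, hvM⟩ := hv
      exact hc hM v hvM hvW) L hL
  have hM0 : ∀ v ∈ M0, v ∈ W → v = 0 := hmax.1
  have hWE : W ≤ W ⊔ M0 := le_sup_left
  have hME : M0 ≤ W ⊔ M0 := le_sup_right
  -- (a)
  have ha : ∀ M : Submodule A V, (∀ m ∈ M, m ∈ W ⊔ M0 → m = 0) → ∀ m ∈ M, m = 0 := by
    intro M hM
    have hle : M0 ⊔ M ≤ M0 := by
      apply hmax.2 _ le_sup_left
      intro v hv hvW
      obtain ⟨l, hl, m, hm, rfl⟩ := Submodule.mem_sup.1 hv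
      have hmE : m ∈ W ⊔ M0 := by
        have : m = (l + m) - l := by abel
        rw [this]
        exact Submodule.sub_mem _ (hWE hvW) (hME hl)
      have hm0 := hM m hm hmE
      subst hm0
      rw [add_zero] at hvW ⊢
      exact hM0 l hl hvW
    intro m hm
    exact hM m hm (hME (hle (le_sup_right (a := M0) hm)))
  -- translates
  let tr : G → Submodule A V → Submodule A V := fun g M =>
    { carrier := {v | τ g v ∈ M}
      add_mem' := by
        intro a b ha hb
        simp only [Set.mem_ofPred_eq, map_add] at *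
        exact M.add_mem ha hb
      zero_mem' := by simp
      smul_mem' := by
        intro a v hv
        simp only [Set.mem_ofPred_eq] at *
        rw [hsm]
        exact M.smul_mem _ hv }
  have htr : ∀ g M v, v ∈ tr g M ↔ τ g v ∈ M := fun g M v => Iff.rfl
  -- (b)
  have hb : ∀ g (M : Submodule A V), (∀ m ∈ M, τ g m ∈ W ⊔ M0 → m = 0) → ∀ m ∈ M, m = 0 := by
    intro g M hM m hm
    have h2 : ∀ v ∈ tr g⁻¹ M, v = 0 := by
      apply ha
      intro v hv hvE
      rw [htr] at hv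
      have h3 := hM _ hv (by rw [hinv1]; exact hvE)
      rw [← hinv1 g v, h3, map_zero]
    have h4 := h2 (τ g m) (by rw [htr, hinv2]; exact hm)
    rw [← hinv2 g m, h4, map_zero]
  -- (c)
  have hc : ∀ s : Finset G, ∀ M : Submodule A V,
      (∀ m ∈ M, (∀ g ∈ s, τ g m ∈ W ⊔ M0) → m = 0) → ∀ m ∈ M, m = 0 := by
    intro s
    induction s using Finset.induction_on with
    | empty =>
      intro M hM m hm
      exact hM m hm (by simp)
    | insert g s _ ih =>
      intro M hM
      apply hb g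
      intro m hm hgm
      refine ih (M ⊓ tr g (W ⊔ M0)) ?_ m ⟨hm, hgm⟩
      intro m' hm' hs
      refine hM m' hm'.1 ?_
      intro g' hg'
      rcases Finset.mem_insert.1 hg' with rfl | hg'
      · exact hm'.2
      · exact hs g' hg'
  -- a nonzero v in L with all translates in E
  obtain ⟨v, hvL, hv0, hvE⟩ : ∃ v ∈ L, v ≠ 0 ∧ ∀ g, τ g v ∈ W ⊔ M0 := by
    by_contra hne
    push Not at hne
    obtain ⟨l0, hl0, hl0'⟩ := hcon
    apply hl0'
    refine hc Finset.univ L ?_ l0 hl0
    intro m hm hg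
    by_contra hm0
    obtain ⟨g, hg'⟩ := hne m hm hm0
    exact hg' (hg g (Finset.mem_univ g))
  -- the projection to W along M0
  have hdec : ∀ e : V, ∃ w : V, e ∈ W ⊔ M0 → (w ∈ W ∧ e - w ∈ M0) := by
    intro e
    by_cases he : e ∈ W ⊔ M0
    · obtain ⟨w, hw, l, hl, rfl⟩ := Submodule.mem_sup.1 he
      exact ⟨w, fun _ => ⟨hw, by simpa using hl⟩⟩
    · exact ⟨0, fun h => absurd h he⟩
  choose p hp using hdec
  have huniq : ∀ e w, e ∈ W ⊔ M0 → w ∈ W → e - w ∈ M0 → p e = w := by
    intro e w he hw hew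
    obtain ⟨h5, h6⟩ := hp e he
    have h7 : p e - w ∈ M0 := by
      have : p e - w = (e - w) - (e - p e) := by abel
      rw [this]
      exact M0.sub_mem hew h6
    exact sub_eq_zero.1 (hM0 _ h7 (W.sub_mem h5 hw))
  have hpadd : ∀ e e', e ∈ W ⊔ M0 → e' ∈ W ⊔ M0 → p (e + e') = p e + p e' := by
    intro e e' he he'
    apply huniq _ _ (Submodule.add_mem _ he he') (W.add_mem (hp e he).1 (hp e' he').1)
    have : e + e' - (p e + p e') = (e - p e) + (e' - p e') := by abel
    rw [this]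
    exact M0.add_mem (hp e he).2 (hp e' he').2
  have hpsmul : ∀ (a : A) e, e ∈ W ⊔ M0 → p (a • e) = a • p e := by
    intro a e he
    apply huniq _ _ (Submodule.smul_mem _ a he) (W.smul_mem a (hp e he).1)
    rw [← smul_sub]
    exact M0.smul_mem a (hp e he).2
  have hpW : ∀ w ∈ W, p w = w := by
    intro w hw
    apply huniq _ _ (hWE hw) hw
    simp
  have hp0 : p 0 = 0 := hpW 0 W.zero_mem
  -- averaging
  let P : V → V := fun u => ∑ g, τ g (p (τ g⁻¹ u))
  have hPdef : ∀ u, P u = ∑ g, τ g (p (τ g⁻¹ u)) := fun u => rfl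
  have hPadd : ∀ u u', (∀ g, τ g u ∈ W ⊔ M0) → (∀ g, τ g u' ∈ W ⊔ M0) →
      P (u + u') = P u + P u' := by
    intro u u' hu hu'
    rw [hPdef, hPdef, hPdef, ← Finset.sum_add_distrib]
    refine Finset.sum_congr rfl fun g _ => ?_
    rw [map_add, hpadd _ _ (hu _) (hu' _), map_add]
  have hPsmul : ∀ (a : A) u, (∀ g, τ g u ∈ W ⊔ M0) → P (a • u) = a • P u := by
    intro a u hu
    rw [hPdef, hPdef, Finset.smul_sum]
    refine Finset.sum_congr rfl fun g _ => ?_
    rw [hsm, hpsmul _ _ (hu _), hsm, hρ1]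
  have hPτ : ∀ h u, P (τ h u) = τ h (P u) := by
    intro h u
    rw [hPdef, hPdef, map_sum]
    refine Finset.sum_bij' (fun g _ => h⁻¹ * g) (fun g _ => h * g) ?_ ?_ ?_ ?_ ?_
    · intro g _; exact Finset.mem_univ _
    · intro g _; exact Finset.mem_univ _
    · intro g _; simp
    · intro g _; simp
    · intro g _
      have e1 : τ g⁻¹ (τ h u) = τ (h⁻¹ * g)⁻¹ u := by
        rw [← hmul]; congr 1; simp [mul_inv_rev]
      rw [e1, ← hmul, mul_inv_cancel_left]
  have hPW : ∀ w ∈ W, P w = Fintype.card G • w := by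
    intro w hw
    rw [hPdef]
    have : ∀ g ∈ (Finset.univ : Finset G), τ g (p (τ g⁻¹ w)) = w := by
      intro g _
      rw [hpW _ (hW _ _ hw), hinv1]
    rw [Finset.sum_congr rfl this, Finset.sum_const, Finset.card_univ]
  have hPmem : ∀ u, (∀ g, τ g u ∈ W ⊔ M0) → P u ∈ W := by
    intro u hu
    rw [hPdef]
    exact Submodule.sum_mem _ fun g _ => hW g _ (hp _ (hu _)).1
  have hWE' : ∀ w ∈ W, ∀ g, τ g w ∈ W ⊔ M0 := fun w hw g => hWE (hW g w hw)
  -- U
  let U : Submodule A V :=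
    { carrier := {u | (∀ g, τ g u ∈ W ⊔ M0) ∧ P u = 0}
      add_mem' := by
        rintro a b ⟨ha1, ha2⟩ ⟨hb1, hb2⟩
        refine ⟨fun g => ?_, ?_⟩
        · rw [map_add]; exact Submodule.add_mem _ (ha1 g) (hb1 g)
        · rw [hPadd _ _ ha1 hb1, ha2, hb2, add_zero]
      zero_mem' := by
        refine ⟨fun g => by simp, ?_⟩
        rw [hPW 0 W.zero_mem, smul_zero]
      smul_mem' := by
        rintro a u ⟨hu1, hu2⟩
        refine ⟨fun g => ?_, ?_⟩
        · rw [hsm]; exact Submodule.smul_mem _ _ (hu1 g)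
        · rw [hPsmul _ _ hu1, hu2, smul_zero] }
  have hU : ∀ u, u ∈ U ↔ ((∀ g, τ g u ∈ W ⊔ M0) ∧ P u = 0) := fun u => Iff.rfl
  have hU0 : ∀ u ∈ U, u = 0 := by
    apply hess U
    · intro g u hu
      rw [hU] at hu ⊢
      refine ⟨fun g' => ?_, ?_⟩
      · rw [← hmul]; exact hu.1 _
      · rw [hPτ, hu.2, map_zero]
    · intro u hu huW
      rw [hU] at hu
      apply htf
      rw [← hPW u huW]
      exact hu.2
  -- conclusion
  have hcast : ∀ u : V, Fintype.card G • u = ((Fintype.card G : ℕ) : A) • u := fun u =>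
    (Nat.cast_smul_eq_nsmul A _ u).symm
  have hPvW : P v ∈ W := hPmem v hvE
  have hxU : Fintype.card G • v - P v ∈ U := by
    rw [hU]
    refine ⟨fun g => ?_, ?_⟩
    · rw [map_sub, map_nsmul]
      exact Submodule.sub_mem _ (Submodule.smul_of_tower_mem _ _ (hvE g)) (hWE' _ hPvW g)
    · rw [sub_eq_add_neg, hPadd]
      · have e2 : P (-P v) = -(Fintype.card G • P v) := by
          have := hPsmul (-1) (P v) (hWE' _ hPvW)
          rw [neg_one_smul, neg_one_smul, hPW _ hPvW] at this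
          exact this
        rw [e2, hcast v, hPsmul _ _ hvE, hcast (P v)]
        abel
      · intro g
        rw [map_nsmul]
        exact Submodule.smul_of_tower_mem _ _ (hvE g)
      · intro g
        rw [map_neg]
        exact Submodule.neg_mem _ (hWE' _ hPvW g)
  have hx0 := hU0 _ hxU
  have hfin : Fintype.card G • v = 0 := by
    apply hL _ (Submodule.smul_of_tower_mem _ _ hvL)
    rw [sub_eq_zero.1 hx0]
    exact hPvW
  exact hv0 (htf v hfin)

end Pool.Agent.Helper47.Desc
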