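import Mathlib
import Pool.Agent.Helper47.Desc.Maschke

/-!
# The main lemma on rings with a finite group of automorphisms

`A` is a ring with an action `ρ` of a finite group `G` and without `|G|`-torsion, `a` an invariant
element, `R` a `G`-stable two-sided ideal such that `a * tr s * a = 0` for all `s ∈ R`, where
`tr s = ∑ g, ρ g s`.  If `J` is a left ideal such that `x = 0` for all `x ∈ J` with
`a * R * x = 0`, then `J = 0`.
-/

namespace Pool.Agent.Helper47.Desc

open Finset

theorem lemmaN {G A : Type*} [Group G] [Fintype G] [Ring A] (ρ : G →* (A ≃+* A))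
    (htf : ∀ x : A, Fintype.card G • x = 0 → x = 0) (a : A) (ha : ∀ g, ρ g a = a)
    (R : Ideal A) (hR : ∀ s ∈ R, ∀ b, s * b ∈ R) (hRG : ∀ g, ∀ s ∈ R, ρ g s ∈ R)
    (htr : ∀ s ∈ R, a * (∑ g : G, ρ g s) * a = 0)
    (J : Ideal A) (hJ : ∀ x ∈ J, (∀ s ∈ R, a * s * x = 0) → x = 0) : ∀ x ∈ J, x = 0 := by
  classical
  -- the action on `G → A`
  let τ : G → (G → A) →+ (G → A) := fun g =>
    { toFun := fun v k => ρ g (v (g⁻¹ * k))
      map_zero' := by
        funext k
        simp
      map_add' := by
        intro v w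
        funext k
        simp }
  have hτ : ∀ g (v : G → A) k, τ g v k = ρ g (v (g⁻¹ * k)) := fun _ _ _ => rfl
  have h1 : ∀ v, τ 1 v = v := by
    intro v
    funext k
    rw [hτ, inv_one, one_mul, map_one]
    rfl
  have hmul : ∀ g h v, τ (g * h) v = τ g (τ h v) := by
    intro g h v
    funext k
    rw [hτ, hτ, hτ, map_mul, mul_inv_rev, mul_assoc]
    rfl
  have hsm : ∀ g (b : A) v, τ g (b • v) = ρ g b • τ g v := by
    intro g b v
    funext k
    rw [hτ, Pi.smul_apply, Pi.smul_apply, hτ, smul_eq_mul, smul_eq_mul, map_mul]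
  have hinv : ∀ g (s : A), ρ g (ρ g⁻¹ s) = s := by
    intro g s
    have h2 : ρ g (ρ g⁻¹ s) = (ρ g * ρ g⁻¹) s := rfl
    rw [h2, ← map_mul, mul_inv_cancel, map_one]
    rfl
  let W : Submodule A (G → A) :=
    { carrier := {v | ∀ s ∈ R, a • ∑ h : G, τ h (s • v) = 0}
      zero_mem' := by
        intro s _
        simp
      add_mem' := by
        intro v w hv hw s hs
        have e : ∑ h : G, τ h (s • (v + w)) = ∑ h : G, τ h (s • v) + ∑ h : G, τ h (s • w) := by
          rw [← Finset.sum_add_distrib]
          refine Finset.sum_congr rfl ?_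
          intro h _
          rw [smul_add, map_add]
        rw [e, smul_add, hv s hs, hw s hs, add_zero]
      smul_mem' := by
        intro b v hv s hs
        have e : ∑ h : G, τ h (s • (b • v)) = ∑ h : G, τ h ((s * b) • v) := by
          refine Finset.sum_congr rfl ?_
          intro h _
          rw [smul_smul]
        rw [e]
        exact hv (s * b) (hR s hs b) }
  have hWmem : ∀ v, v ∈ W ↔ ∀ s ∈ R, a • ∑ h : G, τ h (s • v) = 0 := fun _ => Iff.rfl
  let L : Submodule A (G → A) :=
    { carrier := {v | v 1 ∈ J ∧ ∀ k, k ≠ 1 → v k = 0}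
      zero_mem' := ⟨J.zero_mem, fun _ _ => rfl⟩
      add_mem' := by
        intro v w hv hw
        refine ⟨J.add_mem hv.1 hw.1, ?_⟩
        intro k hk
        rw [Pi.add_apply, hv.2 k hk, hw.2 k hk, add_zero]
      smul_mem' := by
        intro b v hv
        refine ⟨J.mul_mem_left b hv.1, ?_⟩
        intro k hk
        rw [Pi.smul_apply, hv.2 k hk, smul_zero] }
  have hshift : ∀ (g : G) (v : G → A), ∑ h : G, τ (g * h) v = ∑ h : G, τ h v := by
    intro g v
    exact Fintype.sum_equiv (Equiv.mulLeft g) _ _ (fun h => rfl)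
  have hshift' : ∀ (g : G) (v : G → A), ∑ h : G, τ (h * g) v = ∑ h : G, τ h v := by
    intro g v
    exact Fintype.sum_equiv (Equiv.mulRight g) _ _ (fun h => rfl)
  have key := essential_maschke ρ τ h1 hmul hsm (by
      intro v hv
      funext k
      have := congrFun hv k
      exact htf (v k) this) W (by
      intro g v hv s hs
      have e : ∑ h : G, τ h (s • τ g v) = ∑ h : G, τ h ((ρ g⁻¹ s) • v) := by
        rw [← hshift' g ((ρ g⁻¹ s) • v)]
        refine Finset.sum_congr rfl ?_
        intro h _
        rw [hmul, hsm g, hinv]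
      rw [e]
      exact hv _ (hRG g⁻¹ s hs)) (by
      intro U hU hUW u hu
      refine hUW u hu ?_
      rw [hWmem]
      intro s hs
      set w := a • ∑ h : G, τ h (s • u) with hw
      have hwU : w ∈ U := by
        refine U.smul_mem a (U.sum_mem ?_)
        intro h _
        exact hU h _ (U.smul_mem s hu)
      have hwinv : ∀ g, τ g w = w := by
        intro g
        rw [hw, hsm, ha, map_sum]
        congr 1
        rw [← hshift g]
        refine Finset.sum_congr rfl ?_
        intro h _
        rw [hmul]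
      refine hUW w hwU ?_
      rw [hWmem]
      intro s' hs'
      have e : ∑ h : G, τ h (s' • w) = (∑ h : G, ρ h s') • w := by
        rw [Finset.sum_smul]
        refine Finset.sum_congr rfl ?_
        intro h _
        rw [hsm, hwinv]
      rw [e, hw, smul_smul, smul_smul, htr s' hs', zero_smul]) L (by
      intro v hv hvW
      have h3 : v 1 = 0 := by
        refine hJ (v 1) hv.1 ?_
        intro s hs
        have h4 := congrFun (hvW s hs) 1
        rw [Pi.smul_apply, Finset.sum_apply, Pi.zero_apply, Finset.sum_eq_single (1 : G)] at h4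
        · rw [h1, Pi.smul_apply, smul_eq_mul, smul_eq_mul, ← mul_assoc] at h4
          exact h4
        · intro h _ hh
          rw [hτ, Pi.smul_apply, hv.2 (h⁻¹ * 1) (by simpa using hh), smul_zero, map_zero]
        · intro h
          exact absurd (Finset.mem_univ _) h
      funext k
      by_cases hk : k = 1
      · rw [hk, h3]
        rfl
      · exact hv.2 k hk)
  intro x hx
  have h5 := key (Pi.single 1 x) ⟨by rw [Pi.single_eq_same]; exact hx, fun k hk => by
    rw [Pi.single_apply, if_neg hk]⟩
  have h6 := congrFun h5 1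
  rw [Pi.single_eq_same] at h6
  exact h6

/-- If `A` is semiprime without `|G|`-torsion, the ring of invariants is semiprime. -/
theorem invariants_semiprime {G A : Type*} [Group G] [Fintype G] [Ring A] (ρ : G →* (A ≃+* A))
    (htf : ∀ x : A, Fintype.card G • x = 0 → x = 0) (hs : ∀ a : A, (∀ x, a * x * a = 0) → a = 0)
    (a : A) (ha : ∀ g, ρ g a = a) (h : ∀ x, (∀ g, ρ g x = x) → a * x * a = 0) : a = 0 := by
  have hsuminv : ∀ (s : A) (g : G), ρ g (∑ h : G, ρ h s) = ∑ h : G, ρ h s := by
    intro s g
    rw [map_sum]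
    refine Fintype.sum_equiv (Equiv.mulLeft g) _ _ ?_
    intro h
    rw [Equiv.coe_mulLeft, map_mul]
    rfl
  have hN := lemmaN ρ htf a ha ⊤ (fun _ _ _ => Submodule.mem_top) (fun _ _ _ => Submodule.mem_top)
    (fun s _ => h _ (hsuminv s)) (Ideal.span {y | ∃ c, y = a * c}) (by
      intro x hx hsx
      refine hs x ?_
      intro y
      have h3 : ∀ x' ∈ Ideal.span {y | ∃ c, y = a * c}, x' * y * x = 0 := by
        intro x' hx'
        induction hx' using Submodule.span_induction with
        | mem z hz =>
          obtain ⟨c, rfl⟩ := hz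
          have := hsx (c * y) Submodule.mem_top
          rw [← mul_assoc] at this
          exact this
        | zero => rw [zero_mul, zero_mul]
        | add z z' _ _ h1 h2 => rw [add_mul, add_mul, h1, h2, add_zero]
        | smul b z _ h1 => rw [smul_eq_mul, mul_assoc, mul_assoc, ← mul_assoc z, h1, mul_zero]
      exact h3 x hx)
  exact hN a (Ideal.subset_span ⟨1, (mul_one a).symm⟩)

/-- If `A` is semiprime without `|G|`-torsion, a `G`-stable two-sided ideal without invariants is
zero. -/
theorem ideal_eq_zero {G A : Type*} [Group G] [Fintype G] [Ring A] (ρ : G →* (A ≃+* A))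
    (htf : ∀ x : A, Fintype.card G • x = 0 → x = 0) (hs : ∀ a : A, (∀ x, a * x * a = 0) → a = 0)
    (R : Ideal A) (hR : ∀ s ∈ R, ∀ b, s * b ∈ R) (hRG : ∀ g, ∀ s ∈ R, ρ g s ∈ R)
    (h0 : ∀ s ∈ R, (∀ g, ρ g s = s) → s = 0) : ∀ s ∈ R, s = 0 := by
  have hsuminv : ∀ (s : A) (g : G), ρ g (∑ h : G, ρ h s) = ∑ h : G, ρ h s := by
    intro s g
    rw [map_sum]
    refine Fintype.sum_equiv (Equiv.mulLeft g) _ _ ?_
    intro h
    rw [Equiv.coe_mulLeft, map_mul]
    rfl
  refine lemmaN ρ htf 1 (fun g => map_one (ρ g)) R hR hRG ?_ R ?_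
  · intro s hs'
    have h3 : ∑ g : G, ρ g s = 0 :=
      h0 _ (R.sum_mem fun g _ => hRG g s hs') (hsuminv s)
    rw [h3, mul_zero, zero_mul]
  · intro x hx hx'
    refine hs x ?_
    intro y
    have := hx' (x * y) (hR x hx y)
    rwa [one_mul] at this

end Pool.Agent.Helper47.Desc
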