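import Mathlib

/-!
# Stable ideals without powers of a given element

`A` is a `ℚ`-algebra with an action `ρ` of a finite group `G` and `r` an element of `A` which is
not nilpotent.  A `G`-stable two-sided ideal `P` which is maximal among those not containing any
power of `r` is semiprime.
-/

namespace Pool.Agent.Helper47.Desc

/-- `P` is a two-sided ideal, stable under `ρ`. -/
def StableIdeal {G A : Type*} [Group G] [Ring A] (ρ : G →* (A ≃+* A)) (P : Ideal A) : Prop :=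
  (∀ x ∈ P, ∀ b, x * b ∈ P) ∧ ∀ g, ∀ x ∈ P, ρ g x ∈ P

/-- the left ideal generated by `ρ g a * A` -/
private def Ig {G A : Type*} [Group G] [Ring A] (ρ : G →* (A ≃+* A)) (a : A) (g : G) : Ideal A :=
  Ideal.span {y | ∃ c, y = ρ g a * c}

private theorem Ig_mul {G A : Type*} [Group G] [Ring A] (ρ : G →* (A ≃+* A)) (a : A) (g : G)
    (b : A) : ∀ x ∈ Ig ρ a g, x * b ∈ Ig ρ a g := by
  intro x hx
  refine Submodule.span_induction (p := fun x _ => x * b ∈ Ig ρ a g) ?_ ?_ ?_ ?_ hx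
  · rintro y ⟨c, rfl⟩
    exact Ideal.subset_span ⟨c * b, by rw [mul_assoc]⟩
  · simp only [zero_mul]
    exact Submodule.zero_mem _
  · intro x y _ _ h1 h2
    rw [add_mul]
    exact Submodule.add_mem _ h1 h2
  · intro d x _ h
    rw [smul_eq_mul, mul_assoc]
    exact Ideal.mul_mem_left _ _ h

private theorem Ig_map {G A : Type*} [Group G] [Ring A] (ρ : G →* (A ≃+* A)) (a : A) (g h : G) :
    ∀ x ∈ Ig ρ a g, ρ h x ∈ Ig ρ a (h * g) := by
  intro x hx
  refine Submodule.span_induction (p := fun x _ => ρ h x ∈ Ig ρ a (h * g)) ?_ ?_ ?_ ?_ hx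
  · rintro y ⟨c, rfl⟩
    refine Ideal.subset_span ⟨ρ h c, ?_⟩
    rw [map_mul, map_mul]
    rfl
  · rw [map_zero]
    exact Submodule.zero_mem _
  · intro x y _ _ h1 h2
    rw [map_add]
    exact Submodule.add_mem _ h1 h2
  · intro d x _ h1
    rw [smul_eq_mul, map_mul]
    exact Ideal.mul_mem_left _ _ h1

private theorem Ig_sq {G A : Type*} [Group G] [Ring A] (ρ : G →* (A ≃+* A)) (a : A) (g : G)
    (P : Ideal A) (hP : StableIdeal ρ P) (ha : ∀ x, a * x * a ∈ P) :
    ∀ z ∈ Ig ρ a g, ∀ y ∈ Ig ρ a g, y * z ∈ P := by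
  have h1 : ∀ y ∈ Ig ρ a g, y * ρ g a ∈ P := by
    intro y hy
    refine Submodule.span_induction (p := fun x _ => x * ρ g a ∈ P) ?_ ?_ ?_ ?_ hy
    · rintro y ⟨c, rfl⟩
      have h2 := hP.2 g _ (ha ((ρ g).symm c))
      rw [map_mul, map_mul, RingEquiv.apply_symm_apply] at h2
      exact h2
    · simp only [zero_mul]
      exact Submodule.zero_mem _
    · intro x y _ _ h1 h2
      rw [add_mul]
      exact Submodule.add_mem _ h1 h2
    · intro d x _ h
      rw [smul_eq_mul, mul_assoc]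
      exact Ideal.mul_mem_left _ _ h
  intro z hz
  refine Submodule.span_induction (p := fun z _ => ∀ y ∈ Ig ρ a g, y * z ∈ P) ?_ ?_ ?_ ?_ hz
  · rintro z ⟨c, rfl⟩ y hy
    rw [← mul_assoc]
    exact hP.1 _ (h1 y hy) c
  · intro y _
    rw [mul_zero]
    exact Submodule.zero_mem _
  · intro u v _ _ h2 h3 y hy
    rw [mul_add]
    exact Submodule.add_mem _ (h2 y hy) (h3 y hy)
  · intro d x _ h y hy
    rw [smul_eq_mul, ← mul_assoc]
    exact h _ (Ig_mul ρ a g d y hy)

private theorem sup_mul {G A : Type*} [Group G] [Ring A] (ρ : G →* (A ≃+* A)) (a : A)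
    (P : Ideal A) (hP : StableIdeal ρ P) (s : Finset G) (b : A) :
    ∀ x ∈ P ⊔ s.sup (Ig ρ a), x * b ∈ P ⊔ s.sup (Ig ρ a) := by
  have h : P ⊔ s.sup (Ig ρ a) ≤
      Submodule.comap (LinearMap.toSpanSingleton A A b) (P ⊔ s.sup (Ig ρ a)) := by
    refine sup_le ?_ (Finset.sup_le ?_)
    · intro x hx
      rw [Submodule.mem_comap, LinearMap.toSpanSingleton_apply, smul_eq_mul]
      exact Submodule.mem_sup_left (hP.1 x hx b)
    · intro g hg x hx
      rw [Submodule.mem_comap, LinearMap.toSpanSingleton_apply, smul_eq_mul]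
      exact Submodule.mem_sup_right ((Finset.le_sup (f := Ig ρ a) hg) (Ig_mul ρ a g b x hx))
  intro x hx
  have := h hx
  rwa [Submodule.mem_comap, LinearMap.toSpanSingleton_apply, smul_eq_mul] at this

theorem exists_semiprime {G A : Type*} [Group G] [Finite G] [Ring A] (ρ : G →* (A ≃+* A))
    (r : A) (hr : ∀ m : ℕ, r ^ m ≠ 0) :
    ∃ P : Ideal A, StableIdeal ρ P ∧ (∀ m : ℕ, r ^ m ∉ P) ∧
      ∀ a, (∀ x, a * x * a ∈ P) → a ∈ P := by
  classical
  cases nonempty_fintype G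
  have hz := zorn_le_nonempty₀ {P : Ideal A | StableIdeal ρ P ∧ ∀ m : ℕ, r ^ m ∉ P} (by
    intro c hc hch y hy
    have hdir : DirectedOn (· ≤ ·) c := hch.directedOn
    refine ⟨sSup c, ⟨⟨?_, ?_⟩, ?_⟩, fun z hz => le_sSup hz⟩
    · intro x hx b
      rw [Submodule.mem_sSup_of_directed ⟨y, hy⟩ hdir] at hx ⊢
      obtain ⟨Q, hQ, hxQ⟩ := hx
      exact ⟨Q, hQ, (hc hQ).1.1 x hxQ b⟩
    · intro g x hx
      rw [Submodule.mem_sSup_of_directed ⟨y, hy⟩ hdir] at hx ⊢
      obtain ⟨Q, hQ, hxQ⟩ := hx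
      exact ⟨Q, hQ, (hc hQ).1.2 g x hxQ⟩
    · intro m hm
      rw [Submodule.mem_sSup_of_directed ⟨y, hy⟩ hdir] at hm
      obtain ⟨Q, hQ, hxQ⟩ := hm
      exact (hc hQ).2 m hxQ) ⊥ (by
    refine ⟨⟨?_, ?_⟩, ?_⟩
    · intro x hx b
      rw [Submodule.mem_bot] at hx ⊢
      rw [hx, zero_mul]
    · intro g x hx
      rw [Submodule.mem_bot] at hx ⊢
      rw [hx, map_zero]
    · intro m hm
      rw [Submodule.mem_bot] at hm
      exact hr m hm)
  obtain ⟨P, -, hPmax⟩ := hz
  have hPS := hPmax.prop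
  refine ⟨P, hPS.1, hPS.2, ?_⟩
  intro a ha
  by_contra haP
  have haJ : a ∈ P ⊔ (Finset.univ : Finset G).sup (Ig ρ a) := by
    refine Submodule.mem_sup_right ((Finset.le_sup (f := Ig ρ a) (Finset.mem_univ (1 : G))) ?_)
    refine Ideal.subset_span ⟨1, ?_⟩
    rw [map_one, mul_one]
    rfl
  have hJst : StableIdeal ρ (P ⊔ (Finset.univ : Finset G).sup (Ig ρ a)) := by
    refine ⟨fun x hx b => sup_mul ρ a P hPS.1 _ b x hx, ?_⟩
    intro h
    have hle : P ⊔ (Finset.univ : Finset G).sup (Ig ρ a) ≤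
        Ideal.comap (ρ h) (P ⊔ (Finset.univ : Finset G).sup (Ig ρ a)) := by
      refine sup_le ?_ (Finset.sup_le ?_)
      · intro x hx
        rw [Ideal.mem_comap]
        exact Submodule.mem_sup_left (hPS.1.2 h x hx)
      · intro g _ x hx
        rw [Ideal.mem_comap]
        exact Submodule.mem_sup_right ((Finset.le_sup (f := Ig ρ a) (Finset.mem_univ (h * g)))
          (Ig_map ρ a g h x hx))
    intro x hx
    have := hle hx
    rwa [Ideal.mem_comap] at this
  have hex : ∃ m : ℕ, r ^ m ∈ P ⊔ (Finset.univ : Finset G).sup (Ig ρ a) := by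
    by_contra hno
    push Not at hno
    have hle := hPmax.le_of_ge (y := P ⊔ (Finset.univ : Finset G).sup (Ig ρ a)) ⟨hJst, hno⟩
      le_sup_left
    exact haP (hle haJ)
  have hall : ∀ s : Finset G, (∃ m : ℕ, r ^ m ∈ P ⊔ s.sup (Ig ρ a)) → ∃ m : ℕ, r ^ m ∈ P := by
    intro s
    induction s using Finset.induction_on with
    | empty =>
      rintro ⟨m, hm⟩
      rw [Finset.sup_empty, sup_bot_eq] at hm
      exact ⟨m, hm⟩
    | insert g s hg ih =>
      rintro ⟨m, hm⟩
      apply ih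
      rw [Finset.sup_insert, sup_comm (Ig ρ a g), ← sup_assoc, Submodule.mem_sup] at hm
      obtain ⟨x, hx, y, hy, hxy⟩ := hm
      refine ⟨2 * m, ?_⟩
      have hexp : r ^ (2 * m) = (x * x + x * y) + (y * x + y * y) := by
        rw [two_mul, pow_add, ← hxy]
        noncomm_ring
      rw [hexp]
      refine Submodule.add_mem _ (Submodule.add_mem _ ?_ ?_) (Submodule.add_mem _ ?_ ?_)
      · exact sup_mul ρ a P hPS.1 s x x hx
      · exact sup_mul ρ a P hPS.1 s y x hx
      · exact Ideal.mul_mem_left _ _ hx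
      · exact Submodule.mem_sup_left (Ig_sq ρ a g P hPS.1 ha y hy y hy)
  obtain ⟨m, hm⟩ := hall _ hex
  exact hPS.2 m hm

end Pool.Agent.Helper47.Desc
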