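import Mathlib
import Pool.Agent.Helper47.Desc.LemmaN
import Pool.Agent.Helper47.Desc.Maximal

/-!
# The theorem of Bergman and Isaacs

`A` is a `ℚ`-algebra with an action of a finite group `G`, and `R` a `G`-stable two-sided ideal.
If the ring of invariants of `R` is nilpotent, all elements of `R` are nilpotent.
-/

namespace Pool.Agent.Helper47.Desc

/-- The invariant elements of `R` form a nilpotent ring: products of `N` of them are `0`. -/
def NilInvariants {G A : Type*} [Group G] [Ring A] (ρ : G →* (A ≃+* A)) (R : Ideal A)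
    (N : ℕ) : Prop :=
  ∀ l : List A, l.length = N → (∀ x ∈ l, x ∈ R ∧ ∀ g, ρ g x = x) → l.prod = 0

private theorem nil_mono {G A : Type*} [Group G] [Ring A] (ρ : G →* (A ≃+* A)) (R : Ideal A)
    (k j : ℕ) (hkj : k ≤ j) (h : NilInvariants ρ R k) : NilInvariants ρ R j := by
  intro l hl hx
  have h1 : (l.take k).prod = 0 := by
    refine h _ ?_ ?_
    · rw [List.length_take, hl]
      omega
    · intro x hxm
      exact hx x (List.mem_of_mem_take hxm)
  rw [← List.take_append_drop k l, List.prod_append, h1, zero_mul]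

private theorem prod_inv {G A : Type*} [Group G] [Ring A] (ρ : G →* (A ≃+* A)) (l : List A)
    (h : ∀ x ∈ l, ∀ g, ρ g x = x) (g : G) : ρ g l.prod = l.prod := by
  rw [map_list_prod]
  have h1 : l.map (ρ g) = l.map id := List.map_congr_left fun x hx => h x hx g
  rw [h1, List.map_id]

theorem bergman_isaacs_semiprime {G A : Type*} [Group G] [Fintype G] [Ring A]
    (ρ : G →* (A ≃+* A)) (htf : ∀ x : A, Fintype.card G • x = 0 → x = 0)
    (hs : ∀ a : A, (∀ x, a * x * a = 0) → a = 0)
    (R : Ideal A) (hR : StableIdeal ρ R) (N : ℕ) (hN : NilInvariants ρ R N) : ∀ s ∈ R, s = 0 := by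
  classical
  have hdown : ∀ k : ℕ, 1 ≤ k → NilInvariants ρ R (k + 1) → NilInvariants ρ R k := by
    intro k hk h l hl hx
    have hne : l ≠ [] := by
      intro h0
      rw [h0] at hl
      simp at hl
      omega
    have hsplit : l.dropLast ++ [l.getLast hne] = l := List.dropLast_append_getLast hne
    have hlast : l.getLast hne ∈ l := List.getLast_mem hne
    refine invariants_semiprime ρ htf hs l.prod
      (fun g => prod_inv ρ l (fun x hxl => (hx x hxl).2) g) ?_
    intro x hxinv
    have hz := nil_mono ρ R (k + 1) (2 * k) (by omega) h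
      (l.dropLast ++ ([l.getLast hne * x] ++ l)) (by
        simp only [List.length_append, List.length_dropLast, List.length_singleton, hl]
        omega) (by
        intro y hy
        rw [List.mem_append, List.mem_append, List.mem_singleton] at hy
        rcases hy with hy | hy | hy
        · exact hx y (List.mem_of_mem_dropLast hy)
        · rw [hy]
          refine ⟨hR.1 _ (hx _ hlast).1 x, fun g => ?_⟩
          rw [map_mul, (hx _ hlast).2 g, hxinv g]
        · exact hx y hy)
    rw [List.prod_append, List.prod_append, List.prod_singleton] at hz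
    have hp : l.prod = l.dropLast.prod * l.getLast hne := by
      conv_lhs => rw [← hsplit]
      rw [List.prod_append, List.prod_singleton]
    calc l.prod * x * l.prod = (l.dropLast.prod * l.getLast hne) * x * l.prod := by rw [← hp]
      _ = l.dropLast.prod * (l.getLast hne * x * l.prod) := by simp only [mul_assoc]
      _ = 0 := hz
  have hone : ∀ k : ℕ, NilInvariants ρ R (k + 1) → NilInvariants ρ R 1 := by
    intro k
    induction k with
    | zero => intro h; exact h
    | succ k ih => intro h; exact ih (hdown (k + 1) (by omega) h)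
  have h1 : NilInvariants ρ R 1 := hone N (nil_mono ρ R N (N + 1) (Nat.le_succ N) hN)
  refine ideal_eq_zero ρ htf hs R hR.1 hR.2 ?_
  intro s hsR hsinv
  have := h1 [s] rfl (by
    intro x hx
    rw [List.mem_singleton] at hx
    rw [hx]
    exact ⟨hsR, hsinv⟩)
  simpa using this

/-- the induced endomorphism of `A / P` -/
private noncomputable def qmap {G A : Type*} [Group G] [Ring A] (ρ : G →* (A ≃+* A)) (P : Ideal A)
    [P.IsTwoSided] (hP : StableIdeal ρ P) (g : G) : (A ⧸ P) →+* (A ⧸ P) :=
  Ideal.quotientMap P (ρ g : A →+* A) (fun x hx => hP.2 g x hx)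

private theorem qmap_mk {G A : Type*} [Group G] [Ring A] (ρ : G →* (A ≃+* A)) (P : Ideal A)
    [P.IsTwoSided] (hP : StableIdeal ρ P) (g : G) (x : A) :
    qmap ρ P hP g (Ideal.Quotient.mk P x) = Ideal.Quotient.mk P (ρ g x) := by
  unfold qmap
  rw [Ideal.quotientMap_mk]
  rfl

private noncomputable def qequiv {G A : Type*} [Group G] [Ring A] (ρ : G →* (A ≃+* A))
    (P : Ideal A) [P.IsTwoSided] (hP : StableIdeal ρ P) (g : G) : (A ⧸ P) ≃+* (A ⧸ P) :=
  RingEquiv.ofRingHom (qmap ρ P hP g) (qmap ρ P hP g⁻¹)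
    (by
      refine Ideal.Quotient.ringHom_ext ?_
      ext x
      simp only [RingHom.comp_apply, RingHom.id_apply]
      rw [qmap_mk, qmap_mk]
      congr 1
      rw [← RingAut.mul_apply, ← map_mul, mul_inv_cancel, map_one, RingAut.one_apply])
    (by
      refine Ideal.Quotient.ringHom_ext ?_
      ext x
      simp only [RingHom.comp_apply, RingHom.id_apply]
      rw [qmap_mk, qmap_mk]
      congr 1
      rw [← RingAut.mul_apply, ← map_mul, inv_mul_cancel, map_one, RingAut.one_apply])

private theorem qequiv_mk {G A : Type*} [Group G] [Ring A] (ρ : G →* (A ≃+* A)) (P : Ideal A)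
    [P.IsTwoSided] (hP : StableIdeal ρ P) (g : G) (x : A) :
    qequiv ρ P hP g (Ideal.Quotient.mk P x) = Ideal.Quotient.mk P (ρ g x) :=
  qmap_mk ρ P hP g x

private noncomputable def qact {G A : Type*} [Group G] [Ring A] (ρ : G →* (A ≃+* A))
    (P : Ideal A) [P.IsTwoSided] (hP : StableIdeal ρ P) : G →* ((A ⧸ P) ≃+* (A ⧸ P)) where
  toFun := qequiv ρ P hP
  map_one' := by
    ext x
    obtain ⟨y, rfl⟩ := Ideal.Quotient.mk_surjective x
    rw [qequiv_mk, map_one]
    rfl
  map_mul' g h := by
    ext x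
    obtain ⟨y, rfl⟩ := Ideal.Quotient.mk_surjective x
    rw [RingAut.mul_apply, qequiv_mk, qequiv_mk, qequiv_mk, map_mul]
    rfl

private theorem qact_mk {G A : Type*} [Group G] [Ring A] (ρ : G →* (A ≃+* A)) (P : Ideal A)
    [P.IsTwoSided] (hP : StableIdeal ρ P) (g : G) (x : A) :
    qact ρ P hP g (Ideal.Quotient.mk P x) = Ideal.Quotient.mk P (ρ g x) :=
  qmap_mk ρ P hP g x

private theorem prod_smul_list {B : Type*} [Ring B] (c : ℕ) (l : List B) :
    (l.map (fun x => c • x)).prod = c ^ l.length • l.prod := by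
  induction l with
  | nil => simp
  | cons a l ih =>
    rw [List.map_cons, List.prod_cons, ih, List.prod_cons, List.length_cons, pow_succ]
    rw [smul_mul_smul_comm, mul_comm]

theorem bergman_isaacs_finite {G A : Type*} [Group G] [Finite G] [Ring A] [Algebra ℚ A]
    (ρ : G →* (A ≃+* A)) (R : Ideal A) (hR : StableIdeal ρ R) (N : ℕ)
    (hN : NilInvariants ρ R N) : ∀ r ∈ R, IsNilpotent r := by
  classical
  cases nonempty_fintype G
  intro r hr
  by_contra hnil
  have hpow : ∀ m : ℕ, r ^ m ≠ 0 := fun m hm => hnil ⟨m, hm⟩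
  obtain ⟨P, hP, hPr, hPs⟩ := exists_semiprime ρ r hpow
  haveI : P.IsTwoSided := ⟨fun b h => hP.1 _ h b⟩
  have hcard : (Fintype.card G : ℚ) ≠ 0 := by
    exact_mod_cast Fintype.card_ne_zero
  have htf : ∀ x : A ⧸ P, Fintype.card G • x = 0 → x = 0 := by
    intro x hx
    obtain ⟨y, rfl⟩ := Ideal.Quotient.mk_surjective x
    rw [← map_nsmul, Ideal.Quotient.eq_zero_iff_mem] at hx
    rw [Ideal.Quotient.eq_zero_iff_mem]
    have h1 : y = algebraMap ℚ A ((Fintype.card G : ℚ)⁻¹) * (Fintype.card G • y) := by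
      rw [nsmul_eq_mul, ← mul_assoc, ← map_natCast (algebraMap ℚ A), ← map_mul,
        inv_mul_cancel₀ hcard, map_one, one_mul]
    rw [h1]
    exact Ideal.mul_mem_left _ _ hx
  have hs : ∀ a : A ⧸ P, (∀ x, a * x * a = 0) → a = 0 := by
    intro a ha
    obtain ⟨y, rfl⟩ := Ideal.Quotient.mk_surjective a
    rw [Ideal.Quotient.eq_zero_iff_mem]
    refine hPs y fun x => ?_
    have := ha (Ideal.Quotient.mk P x)
    rwa [← map_mul, ← map_mul, Ideal.Quotient.eq_zero_iff_mem] at this
  let R' : Ideal (A ⧸ P) :=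
    { carrier := {x | ∃ s ∈ R, Ideal.Quotient.mk P s = x}
      add_mem' := by
        rintro x y ⟨s, hs, rfl⟩ ⟨t, ht, rfl⟩
        exact ⟨s + t, Submodule.add_mem _ hs ht, map_add _ _ _⟩
      zero_mem' := ⟨0, Submodule.zero_mem _, map_zero _⟩
      smul_mem' := by
        rintro c x ⟨s, hs, rfl⟩
        obtain ⟨d, rfl⟩ := Ideal.Quotient.mk_surjective c
        exact ⟨d * s, Ideal.mul_mem_left _ _ hs, map_mul _ _ _⟩ }
  have hR'mem : ∀ x : A ⧸ P, x ∈ R' ↔ ∃ s ∈ R, Ideal.Quotient.mk P s = x := fun x => Iff.rfl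
  have hR' : StableIdeal (qact ρ P hP) R' := by
    refine ⟨?_, ?_⟩
    · intro x hx b
      obtain ⟨s, hs, rfl⟩ := (hR'mem x).1 hx
      obtain ⟨d, rfl⟩ := Ideal.Quotient.mk_surjective b
      exact (hR'mem _).2 ⟨s * d, hR.1 s hs d, map_mul _ _ _⟩
    · intro g x hx
      obtain ⟨s, hs, rfl⟩ := (hR'mem x).1 hx
      exact (hR'mem _).2 ⟨ρ g s, hR.2 g s hs, (qact_mk ρ P hP g s).symm⟩
  have hN' : NilInvariants (qact ρ P hP) R' N := by
    intro l hl hx
    have hch : ∀ x : A ⧸ P, x ∈ R' → ∃ s, s ∈ R ∧ Ideal.Quotient.mk P s = x := by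
      intro x hx
      obtain ⟨s, hs, h⟩ := (hR'mem x).1 hx
      exact ⟨s, hs, h⟩
    choose! f hf using hch
    have h0 : (l.map (fun x => ∑ g : G, ρ g (f x))).prod = 0 := by
      refine hN _ (by rw [List.length_map, hl]) ?_
      intro y hy
      obtain ⟨x, hxl, rfl⟩ := List.mem_map.1 hy
      refine ⟨Submodule.sum_mem _ fun g _ => hR.2 g _ (hf x (hx x hxl).1).1, ?_⟩
      intro h
      rw [map_sum]
      refine Fintype.sum_equiv (Equiv.mulLeft h) _ _ fun g => ?_
      rw [Equiv.coe_mulLeft, map_mul, RingAut.mul_apply]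
    have h1 : Ideal.Quotient.mk P (l.map (fun x => ∑ g : G, ρ g (f x))).prod =
        Fintype.card G ^ N • l.prod := by
      rw [map_list_prod, List.map_map, ← hl, ← prod_smul_list]
      congr 1
      refine List.map_congr_left fun x hxl => ?_
      have hfx := (hf x (hx x hxl).1).2
      rw [Function.comp_apply, map_sum]
      have h2 : ∀ g : G, Ideal.Quotient.mk P (ρ g (f x)) = x := by
        intro g
        rw [← qact_mk ρ P hP g (f x), hfx]
        exact (hx x hxl).2 g
      rw [Finset.sum_congr rfl (fun g _ => h2 g), Finset.sum_const, Finset.card_univ]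
    rw [h0, map_zero] at h1
    have hiter : ∀ (n : ℕ) (x : A ⧸ P), Fintype.card G ^ n • x = 0 → x = 0 := by
      intro n
      induction n with
      | zero => intro x hx; simpa using hx
      | succ n ih =>
        intro x hx
        rw [pow_succ, mul_smul] at hx
        exact htf x (ih _ hx)
    exact hiter N _ h1.symm
  have hzero := bergman_isaacs_semiprime (qact ρ P hP) htf hs R' hR' N hN'
    (Ideal.Quotient.mk P r) ((hR'mem _).2 ⟨r, hr, rfl⟩)
  rw [Ideal.Quotient.eq_zero_iff_mem] at hzero
  apply hPr 1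
  rw [pow_one]
  exact hzero

end Pool.Agent.Helper47.Desc
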