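import Mathlib
import Pool.Agent.Helper47.Desc.Dec
import Pool.Agent.Helper47.Desc.InfiniteGroup

/-!
# Nilpotence of homologically trivial correspondences
-/

universe u v w

open CategoryTheory AlgebraicGeometry Limits

namespace Pool.Agent.Helper47.Desc

open Pool.Agent.Helper10 Pool.Agent.Helper10.SmProjVar Pool.Agent.Helper47.Chow

variable {k : Type u} [Field k] {K : Type v} [Field K] [CharZero K]
  {W : WeilCohomology.{u, v, w} k K}

/-- All homologically trivial self-correspondences of degree zero of `X` are nilpotent. -/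
def NilHom (C : ChowTheory W) (X : SmProjVar k) : Prop :=
  ∀ γ ∈ CHi (X.prod X) X.dim, C.ops.cl _ γ = 0 → ∃ n, C.pow γ n = 0

/-- The composition of a list of correspondences. -/
noncomputable def compList (C : ChowTheory W) (X : SmProjVar k) :
    List (CH (X.prod X)) → CH (X.prod X)
  | [] => C.Δ X
  | γ :: l => C.comp (compList C X l) γ

/-- `γ ∈ CH^d(X × X)`, `d = dim X`, is homologically trivial and invariant under `Γ`. -/
def IsInvHom (C : ChowTheory W) (X : SmProjVar k) (Γ : Subgroup (SemiAut X))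
    (γ : CH (X.prod X)) : Prop :=
  γ ∈ CHi (X.prod X) X.dim ∧ C.ops.cl _ γ = 0 ∧ ∀ g ∈ Γ, (sq g).chow γ = γ

/-- The `Γ`-invariant homologically trivial correspondences form a nilpotent ring. -/
def NilInv (C : ChowTheory W) (X : SmProjVar k) (Γ : Subgroup (SemiAut X)) : Prop :=
  ∃ N : ℕ, ∀ l : List (CH (X.prod X)), l.length = N → (∀ γ ∈ l, IsInvHom C X Γ γ) →
    compList C X l = 0

/-- The `Γ`-invariant correspondences are combinations of the diagonal and of decomposable
correspondences. -/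
def DecInv (C : ChowTheory W) (X : SmProjVar k) (Γ : Subgroup (SemiAut X)) : Prop :=
  ∀ γ ∈ CHi (X.prod X) X.dim, (∀ g ∈ Γ, (sq g).chow γ = γ) →
    ∃ c : ℚ, ∃ z ∈ decomposable C X, γ = c • C.Δ X + z

/-- The points of `X × X` have finite orbits under `Γ`. -/
def FiniteOrbits (X : SmProjVar k) (Γ : Subgroup (SemiAut X)) : Prop :=
  ∀ x : (X.prod X).Pt, (Set.range fun g : Γ => (sq g.1).pt x).Finite

variable {C : ChowTheory W} {X : SmProjVar k}

noncomputable instance : Module ℚ (Corr C X) :=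
  inferInstanceAs (Module ℚ (CHiL (X.prod X) X.dim))

lemma corr_smul_val (q : ℚ) (γ : Corr C X) : (q • γ).val = q • γ.val := rfl

noncomputable instance : Algebra ℚ (Corr C X) :=
  Algebra.ofModule
    (fun q γ β => Corr.ext (by
      rw [Corr.mul_val, corr_smul_val, C.comp_smul]; rfl))
    (fun q γ β => Corr.ext (by
      rw [Corr.mul_val, corr_smul_val, C.smul_comp]; rfl))

lemma list_prod_val (l : List (Corr C X)) : l.prod.val = compList C X (l.map Corr.val) := by
  induction l with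
  | nil => rfl
  | cons γ l ih =>
    rw [List.prod_cons, Corr.mul_val, ih]
    rfl

/-- **Theorem.** -/
theorem nilHom_of_nilInv (hC : IsEquivariant C) (Γ : Subgroup (SemiAut X))
    (hfin : FiniteOrbits X Γ) (h : NilInv C X Γ) : NilHom C X := by
  obtain ⟨N, hN⟩ := h
  intro γ hγ h0
  let ρ : Γ →* (Corr C X ≃+* Corr C X) := (corrRho hC X).comp Γ.subtype
  have hρ : ∀ (g : Γ) (r : Corr C X), (ρ g r).val = (sq g.1).chow r.val := fun g r => rfl
  have key := bergman_isaacs ρ (homIdeal C X)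
    ⟨fun x hx b => (homIdeal C X).mul_mem_right b hx, fun g x hx => ?_⟩ ?_ N ?_ ⟨γ, hγ⟩ h0
  · obtain ⟨n, hn⟩ := key
    exact ⟨n, (ChowTheory.pow_val (⟨γ, hγ⟩ : Corr C X) n).symm.trans (congrArg Corr.val hn)⟩
  · exact hC.cl _ _ _ hx
  · intro r _
    have h1 := finite_orbit (fun g : Γ => sq g.1) hfin r.val
    refine Set.Finite.of_finite_image (f := Corr.val) (h1.subset ?_) fun a _ b _ => Corr.ext
    rintro _ ⟨_, ⟨g, rfl⟩, rfl⟩
    exact ⟨g, rfl⟩
  · intro l hl hx
    apply Corr.ext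
    rw [list_prod_val]
    refine hN _ (by rw [List.length_map, hl]) fun γ hγ => ?_
    obtain ⟨r, hr, rfl⟩ := List.mem_map.1 hγ
    refine ⟨r.2, (hx r hr).1, fun g hg => ?_⟩
    exact congrArg Corr.val ((hx r hr).2 ⟨g, hg⟩)

theorem nilInv_of_decInv (Γ : Subgroup (SemiAut X)) (h : DecInv C X Γ)
    (hX : ∃ x : W.H X, x ∉ Submodule.span K (Set.range (C.ops.cl X))) : NilInv C X Γ := by
  refine ⟨3, fun l hl hx => ?_⟩
  obtain ⟨a, b, c, rfl⟩ := List.length_eq_three.1 hl
  have hdec : ∀ γ, IsInvHom C X Γ γ → γ ∈ decomposable C X := by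
    intro γ hγ
    obtain ⟨q, z, hz, rfl⟩ := h γ hγ.1 hγ.2.2
    have hq := coeff_eq_zero hX hz hγ.2.1
    rw [hq, zero_smul, zero_add]
    exact hz
  have ha := hx a (by simp)
  have hb := hx b (by simp)
  have hc := hx c (by simp)
  change C.comp (C.comp (C.comp (C.Δ X) c) b) a = 0
  rw [C.Δ_comp]
  exact comp_dec_hom_dec (hdec c hc) (hdec a ha) hb.1 hb.2.1

theorem murreD_of_nilHom (h : NilHom C X) (i : ℕ) {π π' : ℕ → CH (X.prod X)}
    (hπ : C.IsCK X π) (hπ' : C.IsCK X π') (hD : C.MurreD X π i) : C.MurreD X π' i := by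
  have hnil : C.NilOutside X π 0 := by
    intro γ hγ h0
    have h1 : C.Δ X - π 0 ∈ CHi (X.prod X) X.dim :=
      Submodule.sub_mem (CHiL (X.prod X) X.dim) (Δ_mem C X) (hπ.mem 0)
    refine h _ (C.comp_mem _ _ (C.comp_mem _ _ h1 hγ) h1) ?_
    exact C.cl_comp_of_left _ _ (C.cl_comp_of_right _ _ h0)
  refine (ChowTheory.phantom_criterion X π hπ i 0 hD hnil).2 ?_ π' hπ'
  rintro - φ ⟨h1, h2, h3⟩ a -
  have hφ : φ = 0 := by
    obtain ⟨n, hn⟩ := h φ h1 h2
    have h4 : ∀ m, C.pow φ (m + 1) = φ := by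
      intro m
      induction m with
      | zero => exact C.Δ_comp φ
      | succ m ih =>
        change C.comp (C.pow φ (m + 1)) φ = φ
        rw [ih, h3]
    cases n with
    | zero =>
      have h5 : C.Δ X = 0 := hn
      rw [← C.Δ_comp φ, h5, C.zero_comp]
    | succ n => rw [← h4 n, hn]
  rw [hφ]
  exact C.act_zero' a

theorem phantom_of_nilHom (h : NilHom C X) (φ : CH (X.prod X)) (hφ : C.IsPhantom X φ) :
    φ = 0 := by
  obtain ⟨h1, h2, h3⟩ := hφ
  obtain ⟨n, hn⟩ := h φ h1 h2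
  have h4 : ∀ m, C.pow φ (m + 1) = φ := by
    intro m
    induction m with
    | zero => exact C.Δ_comp φ
    | succ m ih =>
      change C.comp (C.pow φ (m + 1)) φ = φ
      rw [ih, h3]
  cases n with
  | zero =>
    have h5 : C.Δ X = 0 := hn
    rw [← C.Δ_comp φ, h5, C.zero_comp]
  | succ n => rw [← h4 n, hn]

theorem offMiddle_of_nilHom (h : NilHom C X) (hX : C.AlgebraicOffMiddle X) (i : ℕ) :
    (∀ π, C.IsCK X π → C.MurreD X π i) ↔
      (2 * i ≤ X.dim → ∀ a ∈ CHi X i, C.ops.cl X a = 0 → a = 0) := by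
  rw [(algebraicOffMiddle X hX).2 i]
  refine ⟨fun H => H.1, fun H => ⟨H, fun _ φ hφ a _ => ?_⟩⟩
  rw [phantom_of_nilHom h φ hφ]
  exact C.act_zero' a

end Pool.Agent.Helper47.Desc
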