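import Mathlib
import Pool.Agent.Helper47.Desc.InfiniteGroup

/-!
# The theorem of Bergman and Isaacs modulo an ideal

`A` is a `ℚ`-algebra with an action of a group `G`, `R` and `J` are `G`-stable two-sided ideals.
If all products of `N` invariant elements of `R` lie in `J`, then every element of `R` with a finite
orbit has a power in `J`.
-/

namespace Pool.Agent.Helper47.Desc

section finite

variable {G A : Type*} [Group G] [Ring A] (ρ : G →* (A ≃+* A)) (J : Ideal A) [J.IsTwoSided]
  (hJ : StableIdeal ρ J)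

/-- the induced endomorphism of `A / J` -/
private noncomputable def mmap (g : G) : (A ⧸ J) →+* (A ⧸ J) :=
  Ideal.quotientMap J (ρ g : A →+* A) (fun x hx => hJ.2 g x hx)

private theorem mmap_mk (g : G) (x : A) :
    mmap ρ J hJ g (Ideal.Quotient.mk J x) = Ideal.Quotient.mk J (ρ g x) := by
  unfold mmap
  rw [Ideal.quotientMap_mk]
  rfl

private noncomputable def mequiv (g : G) : (A ⧸ J) ≃+* (A ⧸ J) :=
  RingEquiv.ofRingHom (mmap ρ J hJ g) (mmap ρ J hJ g⁻¹)
    (by
      refine Ideal.Quotient.ringHom_ext ?_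
      ext x
      simp only [RingHom.comp_apply, RingHom.id_apply]
      rw [mmap_mk, mmap_mk]
      congr 1
      rw [← RingAut.mul_apply, ← map_mul, mul_inv_cancel, map_one, RingAut.one_apply])
    (by
      refine Ideal.Quotient.ringHom_ext ?_
      ext x
      simp only [RingHom.comp_apply, RingHom.id_apply]
      rw [mmap_mk, mmap_mk]
      congr 1
      rw [← RingAut.mul_apply, ← map_mul, inv_mul_cancel, map_one, RingAut.one_apply])

private theorem mequiv_mk (g : G) (x : A) :
    mequiv ρ J hJ g (Ideal.Quotient.mk J x) = Ideal.Quotient.mk J (ρ g x) :=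
  mmap_mk ρ J hJ g x

private noncomputable def mact : G →* ((A ⧸ J) ≃+* (A ⧸ J)) where
  toFun := mequiv ρ J hJ
  map_one' := by
    ext x
    obtain ⟨y, rfl⟩ := Ideal.Quotient.mk_surjective x
    rw [mequiv_mk, map_one]
    rfl
  map_mul' g h := by
    ext x
    obtain ⟨y, rfl⟩ := Ideal.Quotient.mk_surjective x
    rw [RingAut.mul_apply, mequiv_mk, mequiv_mk, mequiv_mk, map_mul]
    rfl

private theorem mact_mk (g : G) (x : A) :
    mact ρ J hJ g (Ideal.Quotient.mk J x) = Ideal.Quotient.mk J (ρ g x) :=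
  mmap_mk ρ J hJ g x

end finite

/-- The finite case. -/
theorem bergman_isaacs_finite_mod {G A : Type*} [Group G] [Finite G] [Ring A] [Algebra ℚ A]
    (ρ : G →* (A ≃+* A)) (R J : Ideal A) (hR : StableIdeal ρ R) (hJ : StableIdeal ρ J) (N : ℕ)
    (hN : ∀ l : List A, l.length = N → (∀ x ∈ l, x ∈ R ∧ ∀ g, ρ g x = x) → l.prod ∈ J) (r : A)
    (hr : r ∈ R) : ∃ n, r ^ n ∈ J := by
  classical
  cases nonempty_fintype G
  haveI : J.IsTwoSided := ⟨fun b h => hJ.1 _ h b⟩
  have hcard : (Fintype.card G : ℚ) ≠ 0 := by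
    exact_mod_cast Fintype.card_ne_zero
  let R' : Ideal (A ⧸ J) :=
    { carrier := {x | ∃ s ∈ R, Ideal.Quotient.mk J s = x}
      add_mem' := by
        rintro x y ⟨s, hs, rfl⟩ ⟨t, ht, rfl⟩
        exact ⟨s + t, Submodule.add_mem _ hs ht, map_add _ _ _⟩
      zero_mem' := ⟨0, Submodule.zero_mem _, map_zero _⟩
      smul_mem' := by
        rintro c x ⟨s, hs, rfl⟩
        obtain ⟨d, rfl⟩ := Ideal.Quotient.mk_surjective c
        exact ⟨d * s, Ideal.mul_mem_left _ _ hs, map_mul _ _ _⟩ }
  have hR'mem : ∀ x : A ⧸ J, x ∈ R' ↔ ∃ s ∈ R, Ideal.Quotient.mk J s = x := fun x => Iff.rfl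
  have hR' : StableIdeal (mact ρ J hJ) R' := by
    refine ⟨?_, ?_⟩
    · intro x hx b
      obtain ⟨s, hs, rfl⟩ := (hR'mem x).1 hx
      obtain ⟨d, rfl⟩ := Ideal.Quotient.mk_surjective b
      exact (hR'mem _).2 ⟨s * d, hR.1 s hs d, map_mul _ _ _⟩
    · intro g x hx
      obtain ⟨s, hs, rfl⟩ := (hR'mem x).1 hx
      exact (hR'mem _).2 ⟨ρ g s, hR.2 g s hs, (mact_mk ρ J hJ g s).symm⟩
  have hN' : NilInvariants (mact ρ J hJ) R' N := by
    intro l hl hx
    have hch : ∀ x : A ⧸ J, x ∈ R' → ∃ s, s ∈ R ∧ Ideal.Quotient.mk J s = x := by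
      intro x hx
      obtain ⟨s, hs, h⟩ := (hR'mem x).1 hx
      exact ⟨s, hs, h⟩
    choose! f hf using hch
    let av : A ⧸ J → A := fun x => algebraMap ℚ A ((Fintype.card G : ℚ)⁻¹) * ∑ g : G, ρ g (f x)
    have h0 : (l.map av).prod ∈ J := by
      refine hN _ (by rw [List.length_map, hl]) ?_
      intro y hy
      obtain ⟨x, hxl, rfl⟩ := List.mem_map.1 hy
      refine ⟨Ideal.mul_mem_left _ _ (Submodule.sum_mem _ fun g _ =>
        hR.2 g _ (hf x (hx x hxl).1).1), ?_⟩
      intro h
      simp only [av]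
      rw [map_mul, map_sum]
      congr 1
      · exact RingHom.map_rat_algebraMap (ρ h : A →+* A) _
      · refine Fintype.sum_equiv (Equiv.mulLeft h) _ _ fun g => ?_
        rw [Equiv.coe_mulLeft, map_mul, RingAut.mul_apply]
    have h1 : Ideal.Quotient.mk J (l.map av).prod = l.prod := by
      rw [map_list_prod, List.map_map]
      have h3 : l.map (⇑(Ideal.Quotient.mk J) ∘ av) = l.map id := by
        refine List.map_congr_left fun x hxl => ?_
        have hfx := (hf x (hx x hxl).1).2
        simp only [Function.comp_apply, av, id]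
        rw [map_mul, map_sum]
        have h2 : ∀ g : G, Ideal.Quotient.mk J (ρ g (f x)) = x := by
          intro g
          rw [← mact_mk ρ J hJ g (f x), hfx]
          exact (hx x hxl).2 g
        rw [Finset.sum_congr rfl (fun g _ => h2 g), Finset.sum_const, Finset.card_univ,
          nsmul_eq_mul, ← mul_assoc, ← map_natCast (Ideal.Quotient.mk J), ← map_mul,
          ← map_natCast (algebraMap ℚ A), ← map_mul, inv_mul_cancel₀ hcard, map_one, map_one,
          one_mul]
      rw [h3, List.map_id]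
    rw [← h1, Ideal.Quotient.eq_zero_iff_mem]
    exact h0
  obtain ⟨n, hn⟩ := bergman_isaacs_finite (mact ρ J hJ) R' hR' N hN' (Ideal.Quotient.mk J r)
    ((hR'mem _).2 ⟨r, hr, rfl⟩)
  refine ⟨n, ?_⟩
  rw [← map_pow, Ideal.Quotient.eq_zero_iff_mem] at hn
  exact hn

section infinite

variable {G A : Type*} [Group G] [Ring A] (ρ : G →* (A ≃+* A))

/-- the stabilizer of `r` -/
private def mstab (r : A) : Subgroup G where
  carrier := {g | ρ g r = r}
  one_mem' := by
    show ρ 1 r = r
    rw [map_one]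
    rfl
  mul_mem' := by
    intro g h hg hh
    show ρ (g * h) r = r
    have e : ρ (g * h) r = ρ g (ρ h r) := by
      rw [map_mul]
      rfl
    rw [e]
    have h1 : ρ h r = r := hh
    have h2 : ρ g r = r := hg
    rw [h1, h2]
  inv_mem' := by
    intro g hg
    show ρ g⁻¹ r = r
    have h2 : ρ g r = r := hg
    have e : ρ g⁻¹ (ρ g r) = r := by
      have e1 : ρ g⁻¹ (ρ g r) = (ρ g⁻¹ * ρ g) r := rfl
      rw [e1, ← map_mul, inv_mul_cancel, map_one]
      rfl
    rw [h2] at e
    exact e

private theorem mstab_finiteIndex (r : A) (hfin : (Set.range fun g => ρ g r).Finite) :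
    (mstab ρ r).FiniteIndex := by
  have hmul : ∀ g h x, ρ (g * h) x = ρ g (ρ h x) := by
    intro g h x
    rw [map_mul]
    rfl
  have hinv : ∀ g x, ρ g⁻¹ (ρ g x) = x := by
    intro g x
    rw [← hmul, inv_mul_cancel, map_one]
    rfl
  have hwd : ∀ a b : G, (QuotientGroup.leftRel (mstab ρ r)) a b → ρ a r = ρ b r := by
    intro a b hab
    rw [QuotientGroup.leftRel_apply] at hab
    have h1 : ρ (a⁻¹ * b) r = r := hab
    have h2 : ρ a (ρ (a⁻¹ * b) r) = ρ b r := by
      rw [← hmul, mul_inv_cancel_left]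
    rw [h1] at h2
    exact h2
  let f : G ⧸ mstab ρ r → Set.range (fun g => ρ g r) := fun q =>
    Quotient.liftOn' q (fun g => ⟨ρ g r, g, rfl⟩) (by
      intro a b hab
      exact Subtype.ext (hwd a b hab))
  have hf : Function.Injective f := by
    intro p q
    induction p using QuotientGroup.induction_on with
    | H a =>
      induction q using QuotientGroup.induction_on with
      | H b =>
        intro h
        have h1 : ρ a r = ρ b r := congrArg Subtype.val h
        rw [QuotientGroup.eq]
        show ρ (a⁻¹ * b) r = r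
        rw [hmul, ← h1, hinv]
  have hfs : Finite (Set.range fun g => ρ g r) := hfin.to_subtype
  have hq : Finite (G ⧸ mstab ρ r) := Finite.of_injective f hf
  exact Subgroup.finiteIndex_of_finite_quotient

/-- the subalgebra of the elements fixed by `K` -/
private def mfixed [Algebra ℚ A] (K : Subgroup G) : Subalgebra ℚ A where
  carrier := {x | ∀ g ∈ K, ρ g x = x}
  mul_mem' := by
    intro x y hx hy g hg
    rw [map_mul, hx g hg, hy g hg]
  add_mem' := by
    intro x y hx hy g hg
    rw [map_add, hx g hg, hy g hg]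
  algebraMap_mem' := by
    intro q g _
    exact RingHom.map_rat_algebraMap (ρ g : A →+* A) q

private theorem mfixed_map [Algebra ℚ A] (K : Subgroup G) [hK : K.Normal] (g : G) {x : A}
    (hx : x ∈ mfixed ρ K) : ρ g x ∈ mfixed ρ K := by
  have hmul : ∀ g h x, ρ (g * h) x = ρ g (ρ h x) := by
    intro g h x
    rw [map_mul]
    rfl
  intro k hk
  have h1 : g⁻¹ * k * g ∈ K := by
    have h2 := hK.conj_mem k hk g⁻¹
    simpa using h2
  have h3 : ρ (g⁻¹ * k * g) x = x := hx _ h1
  calc ρ k (ρ g x) = ρ (k * g) x := (hmul _ _ _).symm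
    _ = ρ (g * (g⁻¹ * k * g)) x := by
      congr 2
      group
    _ = ρ g (ρ (g⁻¹ * k * g) x) := hmul _ _ _
    _ = ρ g x := by rw [h3]

/-- the action on the subalgebra of the elements fixed by `K` -/
private def mrestr [Algebra ℚ A] (K : Subgroup G) [hK : K.Normal] :
    G →* (mfixed ρ K ≃+* mfixed ρ K) where
  toFun g :=
    { toFun := fun x => ⟨ρ g x, mfixed_map ρ K g x.2⟩
      invFun := fun x => ⟨ρ g⁻¹ x, mfixed_map ρ K g⁻¹ x.2⟩
      left_inv := by
        intro x
        refine Subtype.ext ?_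
        show (ρ g⁻¹ * ρ g) (x : A) = x
        rw [← map_mul, inv_mul_cancel, map_one]
        rfl
      right_inv := by
        intro x
        refine Subtype.ext ?_
        show (ρ g * ρ g⁻¹) (x : A) = x
        rw [← map_mul, mul_inv_cancel, map_one]
        rfl
      map_mul' := by
        intro x y
        refine Subtype.ext ?_
        exact map_mul (ρ g) (x : A) (y : A)
      map_add' := by
        intro x y
        refine Subtype.ext ?_
        exact map_add (ρ g) (x : A) (y : A) }
  map_one' := by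
    refine RingEquiv.ext fun x => Subtype.ext ?_
    show ρ 1 (x : A) = x
    rw [map_one]
    rfl
  map_mul' := by
    intro g h
    refine RingEquiv.ext fun x => Subtype.ext ?_
    show ρ (g * h) (x : A) = ρ g (ρ h (x : A))
    rw [map_mul]
    rfl

/-- If all products of `N` invariant elements of `R` lie in `J`, every element of `R` with a finite
orbit has a power in `J`. -/
theorem bergman_isaacs_mod_pow [Algebra ℚ A] (R J : Ideal A) (hR : StableIdeal ρ R)
    (hJ : StableIdeal ρ J) (N : ℕ)
    (hN : ∀ l : List A, l.length = N → (∀ x ∈ l, x ∈ R ∧ ∀ g, ρ g x = x) → l.prod ∈ J) (r : A)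
    (hr : r ∈ R) (hfin : (Set.range fun g => ρ g r).Finite) : ∃ n, r ^ n ∈ J := by
  have hH : (mstab ρ r).FiniteIndex := mstab_finiteIndex ρ r hfin
  let K : Subgroup G := (mstab ρ r).normalCore
  have hKn : K.Normal := Subgroup.normalCore_normal _
  have hKf : K.FiniteIndex := Subgroup.finiteIndex_normalCore _
  have hKr : ∀ g ∈ K, ρ g r = r := by
    intro g hg
    exact Subgroup.normalCore_le _ hg
  let B : Subalgebra ℚ A := mfixed ρ K
  let σ : G →* (B ≃+* B) := mrestr ρ K
  have hσ : ∀ g (x : B), ((σ g x : B) : A) = ρ g (x : A) := fun _ _ => rfl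
  have hker : K ≤ σ.ker := by
    intro g hg
    rw [MonoidHom.mem_ker]
    refine RingEquiv.ext fun x => Subtype.ext ?_
    rw [hσ]
    exact x.2 g hg
  have hkf : σ.ker.FiniteIndex := Subgroup.finiteIndex_of_le hker
  have hfq : Finite (G ⧸ σ.ker) := Subgroup.finite_quotient_of_finiteIndex
  have hfr : Finite σ.range :=
    Finite.of_equiv _ (QuotientGroup.quotientKerEquivRange σ).toEquiv
  let S : Ideal B := Ideal.comap B.toSubring.subtype R
  let T : Ideal B := Ideal.comap B.toSubring.subtype J
  have hst : StableIdeal σ.range.subtype S := by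
    refine ⟨?_, ?_⟩
    · intro x hx b
      exact hR.1 _ hx _
    · rintro ⟨_, g, rfl⟩ x hx
      exact hR.2 g _ hx
  have htt : StableIdeal σ.range.subtype T := by
    refine ⟨?_, ?_⟩
    · intro x hx b
      exact hJ.1 _ hx _
    · rintro ⟨_, g, rfl⟩ x hx
      exact hJ.2 g _ hx
  have hnil : ∀ l : List B, l.length = N →
      (∀ x ∈ l, x ∈ S ∧ ∀ g, σ.range.subtype g x = x) → l.prod ∈ T := by
    intro l hl hx
    show ((l.prod : B) : A) ∈ J
    have h1 : ((l.prod : B) : A) = (l.map (fun x : B => (x : A))).prod := by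
      exact map_list_prod B.toSubring.subtype l
    rw [h1]
    refine hN _ ?_ ?_
    · rw [List.length_map, hl]
    · intro y hy
      rw [List.mem_map] at hy
      obtain ⟨x, hxl, rfl⟩ := hy
      refine ⟨(hx x hxl).1, ?_⟩
      intro g
      have h2 := (hx x hxl).2 ⟨σ g, g, rfl⟩
      exact congrArg Subtype.val h2
  have hrB : r ∈ B := hKr
  obtain ⟨n, hn⟩ := bergman_isaacs_finite_mod σ.range.subtype S T hst htt N hnil ⟨r, hrB⟩ hr
  exact ⟨n, hn⟩

/-- If the invariant elements of `R` lie in `J`, every element of `R` with a finite orbit has a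
power in `J`. -/
theorem bergman_isaacs_mod [Algebra ℚ A] (R J : Ideal A) (hR : StableIdeal ρ R)
    (hJ : StableIdeal ρ J) (hinv : ∀ x ∈ R, (∀ g, ρ g x = x) → x ∈ J) (r : A) (hr : r ∈ R)
    (hfin : (Set.range fun g => ρ g r).Finite) : ∃ n, r ^ n ∈ J := by
  refine bergman_isaacs_mod_pow ρ R J hR hJ 1 (fun l hl hx => ?_) r hr hfin
  obtain ⟨x, rfl⟩ := List.length_eq_one_iff.mp hl
  rw [List.prod_singleton]
  exact hinv x (hx x (List.mem_singleton.mpr rfl)).1 (hx x (List.mem_singleton.mpr rfl)).2

end infinite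

end Pool.Agent.Helper47.Desc
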